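import Pool.Agent.Y61.SC.Rep

/-! Orbits of single-box functionals. -/

open Classical Matrix

namespace Pool.Agent.Y61.SC

variable {n : ℕ} {K : Type} [Field K]

/-- vectors supported strictly between `i` and `j` -/
def mid (i j : Fin n) : Submodule K (Fin n → K) where
  carrier := {c | ∀ k, ¬ (i < k ∧ k < j) → c k = 0}
  add_mem' := by
    intro a b ha hb k hk
    rw [Pi.add_apply, ha k hk, hb k hk, add_zero]
  zero_mem' := by
    intro k _
    rfl
  smul_mem' := by
    intro c a ha k hk
    rw [Pi.smul_apply, ha k hk, smul_zero]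

/-- the element of `U` with `g - 1 = y` -/
noncomputable def ex (y : nil n K) : U n K := equivU.symm y

lemma sub1_ex (y : nil n K) : sub1 (ex y) = y := equivU.apply_symm_apply y

lemma ex_val (y : nil n K) : (ex y).1.1 = 1 + y.1 := by
  have h := congrArg Subtype.val (sub1_ex y)
  simp only [sub1] at h
  rw [← h]
  abel

lemma eq_ex_iff (g : U n K) (y : nil n K) : g = ex y ↔ g.1.1 = 1 + y.1 := by
  constructor
  · rintro rfl
    exact ex_val y
  · intro h
    apply sub1_injective
    rw [sub1_ex]
    apply Subtype.ext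
    change g.1.1 - 1 = y.1
    rw [h]
    abel

/-- row vector as a strictly upper triangular matrix -/
def rowN (i j : Fin n) (t : mid (K := K) i j) : nil n K :=
  ⟨vecMulVec (Pi.single i 1) t.1, by
    intro r s h
    rw [vecMulVec_apply]
    by_cases hr : r = i
    · subst hr
      rw [t.2 s (fun h' => absurd h'.1 (not_lt.2 h)), mul_zero]
    · rw [Pi.single_eq_of_ne hr, zero_mul]⟩

/-- column vector as a strictly upper triangular matrix -/
def colN (i j : Fin n) (c : mid (K := K) i j) : nil n K :=
  ⟨vecMulVec c.1 (Pi.single j 1), by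
    intro r s h
    rw [vecMulVec_apply]
    by_cases hr : s = j
    · subst hr
      rw [c.2 r (fun h' => absurd h'.2 (not_lt.2 h)), zero_mul]
    · rw [Pi.single_eq_of_ne hr, mul_zero]⟩

/-- the corner -/
def cornN (i j : Fin n) (hij : i < j) (s : K) : nil n K :=
  ⟨vecMulVec (Pi.single i s) (Pi.single j 1), by
    intro r q h
    rw [vecMulVec_apply]
    by_cases hr : r = i
    · by_cases hq : q = j
      · subst hr hq
        exact absurd hij (not_lt.2 h)
      · rw [Pi.single_eq_of_ne hq, mul_zero]
    · rw [Pi.single_eq_of_ne hr, zero_mul]⟩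

/-- the functional with parameters `x, w` -/
def Phi (i j : Fin n) (a : K) (x w : mid (K := K) i j) : Module.Dual K (nil n K) where
  toFun y := a * ((Pi.single i 1 + x.1) ⬝ᵥ (y.1 *ᵥ (Pi.single j 1 + w.1)))
  map_add' y z := by
    simp only [Submodule.coe_add, add_mulVec, dotProduct_add, mul_add]
  map_smul' c y := by
    simp only [Submodule.coe_smul, smul_mulVec, dotProduct_smul, smul_eq_mul, RingHom.id_apply]
    ring

lemma Phi_apply (i j : Fin n) (a : K) (x w : mid (K := K) i j) (y : nil n K) :
    Phi i j a x w y = a * ((Pi.single i 1 + x.1) ⬝ᵥ (y.1 *ᵥ (Pi.single j 1 + w.1))) := rfl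

lemma act_entry (u v : U n K) (y : nil n K) (i j : Fin n) :
    (act u v y).1 i j = ∑ r, ∑ s, u.1.1 i r * y.1 r s * v.1.1 s j := by
  change (u.1.1 * y.1 * v.1.1) i j = _
  rw [Matrix.mul_apply]
  simp_rw [Matrix.mul_apply, Finset.sum_mul]
  rw [Finset.sum_comm]

lemma U_entry_lt (u : U n K) {i j : Fin n} (h : j < i) : u.1.1 i j = 0 := by
  have h1 := u.2 i j h.le
  rw [Matrix.sub_apply, Matrix.one_apply_ne h.ne', sub_zero] at h1
  exact h1

lemma U_entry_diag (u : U n K) (i : Fin n) : u.1.1 i i = 1 := by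
  have h1 := u.2 i i le_rfl
  rw [Matrix.sub_apply, Matrix.one_apply_eq, sub_eq_zero] at h1
  exact h1

/-- the middle part of a row -/
def midRow (i j : Fin n) (u : Fin n → K) : mid (K := K) i j :=
  ⟨fun k => if i < k ∧ k < j then u k else 0, by
    intro k hk
    exact if_neg hk⟩

lemma orbit_sub (i j : Fin n) (a : K) (u v : U n K) :
    box i j a ∘ₗ act u v =
      Phi i j a (midRow i j (fun k => u.1.1 i k)) (midRow i j (fun k => v.1.1 k j)) := by
  ext y
  rw [LinearMap.comp_apply, Phi_apply]
  change a * (act u v y).1 i j = _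
  rw [act_entry]
  congr 1
  rw [dotProduct]
  refine Finset.sum_congr rfl fun r _ => ?_
  rw [mulVec, dotProduct, Finset.mul_sum]
  refine Finset.sum_congr rfl fun s _ => ?_
  by_cases hrs : s ≤ r
  · rw [y.2 r s hrs, mul_zero, zero_mul, zero_mul, mul_zero]
  · have hrs' : r < s := not_le.1 hrs
    simp only [midRow, Pi.add_apply]
    by_cases h1 : r < i
    · rw [U_entry_lt u h1, Pi.single_eq_of_ne h1.ne, if_neg (fun h => absurd h.1 (not_lt.2 h1.le))]
      ring
    · by_cases h2 : j < s
      · rw [U_entry_lt v h2, Pi.single_eq_of_ne h2.ne', if_neg (c := i < s ∧ s < j)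
          (fun h => absurd h.2 (not_lt.2 h2.le))]
        ring
      · have h3 : r < j := lt_of_lt_of_le hrs' (not_lt.1 h2)
        have h4 : i < s := lt_of_le_of_lt (not_lt.1 h1) hrs'
        have e1 : (Pi.single i (1 : K) : Fin n → K) r + (if i < r ∧ r < j then u.1.1 i r else 0) =
            u.1.1 i r := by
          rcases eq_or_lt_of_le (not_lt.1 h1) with h | h
          · subst h
            rw [Pi.single_eq_same, if_neg (fun h => absurd h.1 (lt_irrefl _)), add_zero,
              U_entry_diag]
          · rw [Pi.single_eq_of_ne h.ne', if_pos ⟨h, h3⟩, zero_add]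
        have e2 : (Pi.single j (1 : K) : Fin n → K) s + (if i < s ∧ s < j then v.1.1 s j else 0) =
            v.1.1 s j := by
          rcases eq_or_lt_of_le (not_lt.1 h2) with h | h
          · subst h
            rw [Pi.single_eq_same, if_neg (fun h => absurd h.2 (lt_irrefl _)), add_zero,
              U_entry_diag]
          · rw [Pi.single_eq_of_ne h.ne, if_pos ⟨h4, h⟩, zero_add]
        rw [e1, e2]
        ring

lemma orbit_sup (i j : Fin n) (hij : i < j) (a : K) (x w : mid (K := K) i j) :
    Phi i j a x w = box i j a ∘ₗ act (ex (rowN i j x)) (ex (colN i j w)) := by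
  rw [orbit_sub]
  congr 1
  · apply Subtype.ext
    funext k
    simp only [midRow, ex_val, rowN, Matrix.add_apply, vecMulVec_apply, Pi.single_eq_same, one_mul]
    by_cases hk : i < k ∧ k < j
    · rw [if_pos hk, Matrix.one_apply_ne hk.1.ne, zero_add]
    · rw [if_neg hk, x.2 k hk]
  · apply Subtype.ext
    funext k
    simp only [midRow, ex_val, colN, Matrix.add_apply, vecMulVec_apply, Pi.single_eq_same, mul_one]
    by_cases hk : i < k ∧ k < j
    · rw [if_pos hk, Matrix.one_apply_ne hk.2.ne, zero_add]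
    · rw [if_neg hk, w.2 k hk]

lemma mem_orbit_box (i j : Fin n) (hij : i < j) (a : K) (m : Module.Dual K (nil n K)) :
    m ∈ orbit (box i j a) ↔ ∃ x w, m = Phi i j a x w := by
  constructor
  · rintro ⟨u, v, rfl⟩
    exact ⟨_, _, orbit_sub i j a u v⟩
  · rintro ⟨x, w, rfl⟩
    exact ⟨_, _, orbit_sup i j hij a x w⟩

lemma Phi_inj (i j : Fin n) (hij : i < j) {a : K} (ha : a ≠ 0) {x w x' w' : mid (K := K) i j}
    (h : Phi i j a x w = Phi i j a x' w') : x = x' ∧ w = w' := by
  constructor
  · apply Subtype.ext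
    funext k
    by_cases hk : i < k ∧ k < j
    · have h1 := LinearMap.congr_fun h (cornN k j hk.2 1)
      rw [Phi_apply, Phi_apply] at h1
      have h2 := mul_left_cancel₀ ha h1
      have e : ∀ x w : mid (K := K) i j,
          (Pi.single i 1 + x.1) ⬝ᵥ ((cornN k j hk.2 (1 : K)).1 *ᵥ (Pi.single j 1 + w.1)) =
            x.1 k := by
        intro x w
        simp only [cornN, vecMulVec_mulVec, single_dotProduct, one_mul, Pi.add_apply,
          Pi.single_eq_same]
        rw [w.2 j (fun h => absurd h.2 (lt_irrefl _)), add_zero]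
        simp [hk.1.ne']
      rw [e, e] at h2
      exact h2
    · rw [x.2 k hk, x'.2 k hk]
  · apply Subtype.ext
    funext k
    by_cases hk : i < k ∧ k < j
    · have h1 := LinearMap.congr_fun h (cornN i k hk.1 1)
      rw [Phi_apply, Phi_apply] at h1
      have h2 := mul_left_cancel₀ ha h1
      have e : ∀ x w : mid (K := K) i j,
          (Pi.single i 1 + x.1) ⬝ᵥ ((cornN i k hk.1 (1 : K)).1 *ᵥ (Pi.single j 1 + w.1)) =
            w.1 k := by
        intro x w
        simp only [cornN, vecMulVec_mulVec, single_dotProduct, one_mul, Pi.add_apply]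
        rw [Pi.single_eq_of_ne hk.2.ne, zero_add]
        simp [x.2 i (fun h => absurd h.1 (lt_irrefl _))]
      rw [e, e] at h2
      exact h2
    · rw [w.2 k hk, w'.2 k hk]

section

variable [Finite K] {θ : AddChar K ℂ}

noncomputable instance ftMid (i j : Fin n) : Fintype (mid (K := K) i j) := Fintype.ofFinite _

lemma Fo_box (i j : Fin n) (hij : i < j) {a : K} (ha : a ≠ 0) (y : nil n K) :
    Fo θ (box i j a) y = ∑ x : mid (K := K) i j, ∑ w : mid (K := K) i j,
      θ (a * ((Pi.single i 1 + x.1) ⬝ᵥ (y.1 *ᵥ (Pi.single j 1 + w.1)))) := by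
  refine Eq.trans ?_ (Fintype.sum_prod_type' (fun x w : mid (K := K) i j =>
      θ (a * ((Pi.single i 1 + x.1) ⬝ᵥ (y.1 *ᵥ (Pi.single j 1 + w.1))))))
  unfold Fo
  symm
  refine Finset.sum_bij (fun p _ => Phi i j a p.1 p.2) ?_ ?_ ?_ ?_
  · intro p _
    simp only [Finset.mem_filter, Finset.mem_univ, true_and]
    exact (mem_orbit_box i j hij a _).2 ⟨_, _, rfl⟩
  · intro p _ q _ h
    have := Phi_inj i j hij ha h
    exact Prod.ext this.1 this.2
  · intro m hm
    simp only [Finset.mem_filter, Finset.mem_univ, true_and] at hm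
    obtain ⟨x, w, rfl⟩ := (mem_orbit_box i j hij a _).1 hm
    exact ⟨(x, w), by simp, rfl⟩
  · intro p _
    rw [Phi_apply]

lemma card_orbit_box (i j : Fin n) (hij : i < j) {a : K} (ha : a ≠ 0) :
    Fo θ (box i j a) 0 = (Fintype.card (mid (K := K) i j) : ℂ) ^ 2 := by
  rw [Fo_box i j hij ha]
  simp only [Submodule.coe_zero, zero_mulVec, dotProduct_zero, mul_zero, AddChar.map_zero_eq_one,
    Finset.sum_const, Finset.card_univ, nsmul_eq_mul, mul_one]
  ring

end

end Pool.Agent.Y61.SC
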