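import Pool.Agent.Y61.SC.Four

/-! The number of superclasses equals the number of two-sided orbits of functionals. -/

open Classical

namespace Pool.Agent.Y61.SC

variable {n : ℕ} {K : Type} [Field K]

lemma sub1_injective : Function.Injective (sub1 : U n K → nil n K) := by
  intro g h e
  have e1 := congrArg Subtype.val e
  simp only [sub1] at e1
  exact Subtype.ext (Units.ext (sub_left_inj.1 e1))

lemma isNilpotent_of_mem {y : Matrix (Fin n) (Fin n) K} (hy : y ∈ nil n K) : IsNilpotent y :=
  ⟨n, pow_n hy⟩

lemma sub1_surjective : Function.Surjective (sub1 : U n K → nil n K) := by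
  intro y
  obtain ⟨a, ha⟩ := (isNilpotent_of_mem y.2).isUnit_one_add
  have h : a.1 - 1 = y.1 := by rw [ha, add_sub_cancel_left]
  refine ⟨⟨a, ?_⟩, ?_⟩
  · change a.1 - 1 ∈ nil n K
    rw [h]
    exact y.2
  · exact Subtype.ext h

/-- `g ↦ g - 1` -/
noncomputable def equivU : U n K ≃ nil n K :=
  Equiv.ofBijective sub1 ⟨sub1_injective, sub1_surjective⟩

lemma equivU_apply (g : U n K) : equivU g = sub1 g := rfl

variable (n K) in
/-- orbits on the strictly upper triangular matrices -/
def s1 : Setoid (nil n K) where
  r y z := ∃ u v : U n K, z = act u v y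
  iseqv :=
    { refl := fun y => ⟨1, 1, (act_one y).symm⟩
      symm := by
        rintro y z ⟨u, v, rfl⟩
        exact ⟨u⁻¹, v⁻¹, (act_inv u v y).symm⟩
      trans := by
        rintro y z w ⟨u, v, rfl⟩ ⟨u', v', rfl⟩
        exact ⟨u' * u, v * v', act_act _ _ _ _ _⟩ }

variable (n K) in
/-- orbits on functionals -/
def s2 : Setoid (Module.Dual K (nil n K)) where
  r l m := m ∈ orbit l
  iseqv :=
    { refl := mem_orbit_self
      symm := orbit_symm
      trans := orbit_trans }

section

variable [Finite K] {θ : AddChar K ℂ}

/-- Fourier transform on orbit functions -/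
noncomputable def T (θ : AddChar K ℂ) : (Quotient (s1 n K) → ℂ) →ₗ[ℂ] (Quotient (s2 n K) → ℂ) where
  toFun f := fun q => Quotient.lift
    (fun l : Module.Dual K (nil n K) => ∑ y : nil n K, f (Quotient.mk (s1 n K) y) * θ (l y)) (by
      rintro l m ⟨u, v, rfl⟩
      refine Fintype.sum_equiv (Equiv.mk (act u⁻¹ v⁻¹) (act u v) (act_inv' u v) (act_inv u v))
        _ _ ?_
      intro y
      simp only [Equiv.coe_fn_mk, LinearMap.comp_apply, act_inv']
      congr 2
      exact Quotient.sound ⟨u⁻¹, v⁻¹, rfl⟩) q
  map_add' f g := by
    funext q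
    induction q using Quotient.inductionOn with
    | h l => simp only [Quotient.lift_mk, Pi.add_apply, add_mul, Finset.sum_add_distrib]
  map_smul' c f := by
    funext q
    induction q using Quotient.inductionOn with
    | h l => simp only [Quotient.lift_mk, Pi.smul_apply, smul_eq_mul, mul_assoc, Finset.mul_sum,
        RingHom.id_apply]

/-- Fourier transform on orbit functions -/
noncomputable def S (θ : AddChar K ℂ) : (Quotient (s2 n K) → ℂ) →ₗ[ℂ] (Quotient (s1 n K) → ℂ) where
  toFun f := fun q => Quotient.lift
    (fun y : nil n K => ∑ l : Module.Dual K (nil n K), f (Quotient.mk (s2 n K) l) * θ (-(l y))) (by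
      rintro y z ⟨u, v, rfl⟩
      refine Fintype.sum_equiv (Equiv.mk (fun l => l ∘ₗ act u⁻¹ v⁻¹) (fun l => l ∘ₗ act u v)
        (fun l => by ext y; simp only [LinearMap.comp_apply]; rw [act_inv])
        (fun l => by ext y; simp only [LinearMap.comp_apply]; rw [act_inv']))
        _ _ ?_
      intro l
      simp only [Equiv.coe_fn_mk, LinearMap.comp_apply, act_inv]
      congr 2
      exact Quotient.sound (s := s2 n K) ⟨u⁻¹, v⁻¹, rfl⟩) q
  map_add' f g := by
    funext q
    induction q using Quotient.inductionOn with
    | h l => simp only [Quotient.lift_mk, Pi.add_apply, add_mul, Finset.sum_add_distrib]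
  map_smul' c f := by
    funext q
    induction q using Quotient.inductionOn with
    | h l => simp only [Quotient.lift_mk, Pi.smul_apply, smul_eq_mul, mul_assoc, Finset.mul_sum,
        RingHom.id_apply]

lemma T_apply (f : Quotient (s1 n K) → ℂ) (l : Module.Dual K (nil n K)) :
    T θ f (Quotient.mk (s2 n K) l) = ∑ y : nil n K, f (Quotient.mk (s1 n K) y) * θ (l y) := rfl

lemma S_apply (f : Quotient (s2 n K) → ℂ) (y : nil n K) :
    S θ f (Quotient.mk (s1 n K) y) =
      ∑ l : Module.Dual K (nil n K), f (Quotient.mk (s2 n K) l) * θ (-(l y)) := rfl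

lemma ST (hθ : θ ≠ 1) (f : Quotient (s1 n K) → ℂ) :
    S θ (T θ f) = (Fintype.card (Module.Dual K (nil n K)) : ℂ) • f := by
  funext q
  induction q using Quotient.inductionOn with
  | h y =>
    rw [S_apply, Pi.smul_apply, smul_eq_mul]
    simp_rw [T_apply, Finset.sum_mul]
    rw [Finset.sum_comm]
    have h1 : ∀ z : nil n K, ∑ l : Module.Dual K (nil n K),
        f (Quotient.mk (s1 n K) z) * θ (l z) * θ (-(l y)) =
        f (Quotient.mk (s1 n K) z) * if z = y then
          (Fintype.card (Module.Dual K (nil n K)) : ℂ) else 0 := by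
      intro z
      have h2 := sum_vec hθ (z - y)
      simp only [sub_eq_zero] at h2
      rw [← h2, Finset.mul_sum]
      refine Finset.sum_congr rfl fun l _ => ?_
      rw [mul_assoc, ← AddChar.map_add_eq_mul, map_sub, sub_eq_add_neg]
    rw [Finset.sum_congr rfl (fun z _ => h1 z)]
    simp only [mul_ite, mul_zero, Finset.sum_ite_eq', Finset.mem_univ, if_true]
    rw [mul_comm]

lemma TS (hθ : θ ≠ 1) (f : Quotient (s2 n K) → ℂ) :
    T θ (S θ f) = (Fintype.card (nil n K) : ℂ) • f := by
  funext q
  induction q using Quotient.inductionOn with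
  | h y =>
    rw [T_apply, Pi.smul_apply, smul_eq_mul]
    simp_rw [S_apply, Finset.sum_mul]
    rw [Finset.sum_comm]
    have h1 : ∀ z : Module.Dual K (nil n K), ∑ l : nil n K,
        f (Quotient.mk (s2 n K) z) * θ (-(z l)) * θ (y l) =
        f (Quotient.mk (s2 n K) z) * if y = z then
          (Fintype.card (nil n K) : ℂ) else 0 := by
      intro z
      have h2 := sum_dual hθ (y - z)
      simp only [sub_eq_zero] at h2
      rw [← h2, Finset.mul_sum]
      refine Finset.sum_congr rfl fun l _ => ?_
      rw [mul_assoc, ← AddChar.map_add_eq_mul, LinearMap.sub_apply]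
      congr 2
      ring
    rw [Finset.sum_congr rfl (fun z _ => h1 z)]
    simp only [mul_ite, mul_zero, Finset.sum_ite_eq, Finset.mem_univ, if_true]
    rw [mul_comm]

lemma card_quot (hθ : θ ≠ 1) : Nat.card (Quotient (s1 n K)) = Nat.card (Quotient (s2 n K)) := by
  have : Fintype (Quotient (s1 n K)) := Fintype.ofFinite _
  have : Fintype (Quotient (s2 n K)) := Fintype.ofFinite _
  have c0 : (Fintype.card (nil n K) : ℂ) ≠ 0 := by
    exact_mod_cast Fintype.card_ne_zero
  have c1 : (Fintype.card (Module.Dual K (nil n K)) : ℂ) ≠ 0 := by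
    exact_mod_cast Fintype.card_ne_zero
  have hT : Function.Injective (T (n := n) θ) := by
    intro f g h
    have h1 := congrArg (S θ) h
    rw [ST hθ, ST hθ] at h1
    exact smul_right_injective _ c1 h1
  have hS : Function.Injective (S (n := n) θ) := by
    intro f g h
    have h1 := congrArg (T θ) h
    rw [TS hθ, TS hθ] at h1
    exact smul_right_injective _ c0 h1
  have h1 := LinearMap.finrank_le_finrank_of_injective hT
  have h2 := LinearMap.finrank_le_finrank_of_injective hS
  rw [Module.finrank_fintype_fun_eq_card, Module.finrank_fintype_fun_eq_card] at h1 h2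
  rw [Nat.card_eq_fintype_card, Nat.card_eq_fintype_card]
  omega

/-- if all orbit sums agree at two matrices then they are in the same orbit -/
lemma rel_of_Fo_eq (hθ : θ ≠ 1) (y z : nil n K) (h : ∀ l, Fo θ l y = Fo θ l z) :
    ∃ u v : U n K, z = act u v y := by
  have c1 : (Fintype.card (Module.Dual K (nil n K)) : ℂ) ≠ 0 := by
    exact_mod_cast Fintype.card_ne_zero
  -- the indicator function of the orbit of `y`
  set f : Quotient (s1 n K) → ℂ := fun q => if q = Quotient.mk (s1 n K) y then 1 else 0 with hf
  have key : ∀ F : Quotient (s2 n K) → ℂ, ∀ w w' : nil n K, (∀ l, Fo θ l w = Fo θ l w') →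
      ∑ l : Module.Dual K (nil n K), F (Quotient.mk (s2 n K) l) * θ (l w) =
      ∑ l : Module.Dual K (nil n K), F (Quotient.mk (s2 n K) l) * θ (l w') := by
    intro F w w' hw
    have h1 : ∀ x : nil n K, ∑ l : Module.Dual K (nil n K), F (Quotient.mk (s2 n K) l) * θ (l x) =
        ∑ q : Quotient (s2 n K), F q * Fo θ q.out x := by
      intro x
      rw [← Finset.sum_fiberwise (Finset.univ) (fun l => Quotient.mk (s2 n K) l)]
      refine Finset.sum_congr rfl fun q _ => ?_
      unfold Fo
      rw [Finset.mul_sum]
      refine Finset.sum_congr ?_ ?_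
      · ext l
        simp only [Finset.mem_filter, Finset.mem_univ, true_and]
        constructor
        · intro hl
          have h3 : Quotient.mk (s2 n K) q.out = Quotient.mk (s2 n K) l := by
            rw [Quotient.out_eq, hl]
          exact Quotient.exact h3
        · intro hl
          have h3 : Quotient.mk (s2 n K) q.out = Quotient.mk (s2 n K) l := Quotient.sound hl
          rw [← h3, Quotient.out_eq]
      · intro l hl
        simp only [Finset.mem_filter, Finset.mem_univ, true_and] at hl
        have h3 : Quotient.mk (s2 n K) q.out = Quotient.mk (s2 n K) l := Quotient.sound hl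
        rw [← h3, Quotient.out_eq]
    rw [h1 w, h1 w']
    exact Finset.sum_congr rfl fun q _ => by rw [hw]
  have hneg : ∀ l, Fo θ l (-y) = Fo θ l (-z) := by
    intro l
    have h1 : ∀ x : nil n K, Fo θ l (-x) = Fo θ (-l) x := by
      intro x
      unfold Fo
      refine Finset.sum_bij' (fun m _ => -m) (fun m _ => -m) ?_ ?_ ?_ ?_ ?_
      · intro m hm
        simp only [Finset.mem_filter, Finset.mem_univ, true_and] at hm ⊢
        obtain ⟨u, v, rfl⟩ := hm
        exact ⟨u, v, by rw [LinearMap.neg_comp]⟩
      · intro m hm
        simp only [Finset.mem_filter, Finset.mem_univ, true_and] at hm ⊢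
        obtain ⟨u, v, rfl⟩ := hm
        exact ⟨u, v, by rw [LinearMap.neg_comp, neg_neg]⟩
      · intro m _
        exact neg_neg m
      · intro m _
        exact neg_neg m
      · intro m _
        simp only [map_neg, LinearMap.neg_apply]
    rw [h1, h1, h]
  have h2 : S θ (T θ f) (Quotient.mk (s1 n K) y) = S θ (T θ f) (Quotient.mk (s1 n K) z) := by
    rw [S_apply, S_apply]
    have := key (T θ f) (-y) (-z) hneg
    simp only [map_neg] at this
    exact this
  rw [ST hθ] at h2
  simp only [Pi.smul_apply, smul_eq_mul] at h2
  have h3 := mul_left_cancel₀ c1 h2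
  rw [hf] at h3
  simp only [if_true] at h3
  have h4 : Quotient.mk (s1 n K) z = Quotient.mk (s1 n K) y := by
    by_contra hne
    rw [if_neg hne] at h3
    exact one_ne_zero h3
  exact Quotient.exact h4.symm

/-- the number of superclasses is the number of orbits on matrices -/
lemma ncard_andreC : (andreC n K).ncard = Nat.card (Quotient (s1 n K)) := by
  let F : Quotient (s1 n K) → Set (U n K) := fun q =>
    {g | Quotient.mk (s1 n K) (sub1 g) = q}
  have hF : Function.Injective F := by
    intro q q' h
    induction q using Quotient.inductionOn with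
    | h y =>
      obtain ⟨g, rfl⟩ := sub1_surjective y
      have h1 : g ∈ F (Quotient.mk (s1 n K) (sub1 g)) := rfl
      rw [h] at h1
      exact h1
  have hr : Set.range F = andreC n K := by
    ext B
    constructor
    · rintro ⟨q, rfl⟩
      induction q using Quotient.inductionOn with
      | h y =>
        obtain ⟨g, rfl⟩ := sub1_surjective y
        refine ⟨g, ?_⟩
        ext h
        constructor
        · rintro ⟨u, v, e⟩
          exact Quotient.sound ((s1 n K).symm ⟨u, v, e⟩)
        · intro e
          exact (s1 n K).symm (Quotient.exact e)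
    · rintro ⟨g, rfl⟩
      refine ⟨Quotient.mk (s1 n K) (sub1 g), ?_⟩
      ext h
      constructor
      · intro e
        exact (s1 n K).symm (Quotient.exact e)
      · rintro ⟨u, v, e⟩
        exact Quotient.sound ((s1 n K).symm ⟨u, v, e⟩)
  rw [← hr, ← Nat.card_coe_set_eq, Nat.card_range_of_injective hF]

end

end Pool.Agent.Y61.SC
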