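import Mathlib

/-! Supercharacter theories of finite groups and the theory of the unitriangular groups. -/

namespace Pool.Agent.Y61.SC

/-- The irreducible complex characters of `G`. -/
def Irr (G : Type) [Group G] : Set (G → ℂ) :=
  {χ | ∃ (V : Type) (_ : AddCommGroup V) (_ : Module ℂ V) (_ : FiniteDimensional ℂ V)
    (ρ : Representation ℂ G V), ρ.IsIrreducible ∧ χ = ρ.character}

/-- `(X, C)` is a supercharacter theory of `G`. -/
structure IsTheory {G : Type} [Group G] (X : Set (Set (Irr G))) (C : Set (Set G)) : Prop where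
  chars : Setoid.IsPartition X
  classes : Setoid.IsPartition C
  card_eq : X.ncard = C.ncard
  one_mem : {1} ∈ C
  const : ∀ A ∈ X, ∀ B ∈ C, ∀ g ∈ B, ∀ h ∈ B,
    ∑ᶠ ψ ∈ A, ψ.1 1 * ψ.1 g = ∑ᶠ ψ ∈ A, ψ.1 1 * ψ.1 h

/-- The irreducible constituents of a function (recall `ψ g⁻¹ = conj (ψ g)` for characters). -/
def constituents {G : Type} [Group G] (f : G → ℂ) : Set (Irr G) :=
  {ψ | ∑ᶠ g : G, f g * ψ.1 g⁻¹ ≠ 0}

variable (n : ℕ) (K : Type) [Field K]

/-- The strictly upper triangular matrices. -/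
def nil : Submodule K (Matrix (Fin n) (Fin n) K) where
  carrier := {y | ∀ i j, j ≤ i → y i j = 0}
  add_mem' := by
    intro a b ha hb i j hij
    rw [Matrix.add_apply, ha i j hij, hb i j hij, add_zero]
  zero_mem' := by
    intro i j _
    rfl
  smul_mem' := by
    intro c a ha i j hij
    rw [Matrix.smul_apply, ha i j hij, smul_zero]

variable {n K}

lemma mul_nil {x y : Matrix (Fin n) (Fin n) K} (hx : x ∈ nil n K) (hy : y ∈ nil n K) :
    x * y ∈ nil n K := by
  intro i j hij
  rw [Matrix.mul_apply]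
  refine Finset.sum_eq_zero fun k _ => ?_
  by_cases h : k ≤ i
  · rw [hx i k h, zero_mul]
  · rw [hy k j (by omega), mul_zero]

lemma pow_nil {x : Matrix (Fin n) (Fin n) K} (hx : x ∈ nil n K) (k : ℕ) :
    ∀ i j : Fin n, (j : ℕ) < i + k → (x ^ k) i j = 0 := by
  induction k with
  | zero =>
    intro i j h
    rw [pow_zero, Matrix.one_apply_ne]
    intro e
    subst e
    omega
  | succ k ih =>
    intro i j h
    rw [pow_succ, Matrix.mul_apply]
    refine Finset.sum_eq_zero fun l _ => ?_
    by_cases hl : (l : ℕ) < i + k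
    · rw [ih i l hl, zero_mul]
    · rw [hx l j (by rw [Fin.le_def]; omega), mul_zero]

lemma pow_n {x : Matrix (Fin n) (Fin n) K} (hx : x ∈ nil n K) : x ^ n = 0 := by
  ext i j
  rw [pow_nil hx n i j (by omega)]
  rfl

lemma pow_succ_mem {x : Matrix (Fin n) (Fin n) K} (hx : x ∈ nil n K) (k : ℕ) :
    x ^ (k + 1) ∈ nil n K := by
  intro i j hij
  exact pow_nil hx (k + 1) i j (by rw [Fin.le_def] at hij; omega)

lemma inv_sub_one_mem (a : (Matrix (Fin n) (Fin n) K)ˣ)
    (ha : (a : Matrix (Fin n) (Fin n) K) - 1 ∈ nil n K) :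
    ((a⁻¹ : (Matrix (Fin n) (Fin n) K)ˣ) : Matrix (Fin n) (Fin n) K) - 1 ∈ nil n K := by
  set x : Matrix (Fin n) (Fin n) K := -((a : Matrix (Fin n) (Fin n) K) - 1) with hxdef
  have hx : x ∈ nil n K := Submodule.neg_mem _ ha
  have h1 : (a : Matrix (Fin n) (Fin n) K) * ∑ i ∈ Finset.range n, x ^ i = 1 := by
    have h2 := mul_neg_geom_sum x n
    rw [pow_n hx, sub_zero] at h2
    have h3 : (1 : Matrix (Fin n) (Fin n) K) - x = a := by rw [hxdef]; abel
    rwa [h3] at h2
  have h4 : ((a⁻¹ : (Matrix (Fin n) (Fin n) K)ˣ) : Matrix (Fin n) (Fin n) K) =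
      ∑ i ∈ Finset.range n, x ^ i := by
    have h5 := congrArg (fun z => ((a⁻¹ : (Matrix (Fin n) (Fin n) K)ˣ) :
      Matrix (Fin n) (Fin n) K) * z) h1
    simp only [Units.inv_mul_cancel_left, mul_one] at h5
    exact h5.symm
  rw [h4]
  rcases Nat.eq_zero_or_pos n with h0 | h0
  · intro i
    exact absurd i.2 (by omega)
  · obtain ⟨m, hm⟩ : ∃ m, n = m + 1 := ⟨n - 1, by omega⟩
    have h6 : ∑ i ∈ Finset.range n, x ^ i = ∑ i ∈ Finset.range m, x ^ (i + 1) + 1 := by
      have h7 : Finset.range n = Finset.range (m + 1) := by rw [hm]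
      rw [h7, Finset.sum_range_succ', pow_zero]
    rw [h6, add_sub_cancel_right]
    exact Submodule.sum_mem _ fun k _ => pow_succ_mem hx k

variable (n K)

/-- The group of upper unitriangular matrices. -/
def U : Subgroup (Matrix (Fin n) (Fin n) K)ˣ where
  carrier := {g | (g : Matrix (Fin n) (Fin n) K) - 1 ∈ nil n K}
  mul_mem' := by
    intro a b ha hb
    have h : ((a * b : (Matrix (Fin n) (Fin n) K)ˣ) : Matrix (Fin n) (Fin n) K) - 1 =
      (a.1 - 1) * (b.1 - 1) + (a.1 - 1) + (b.1 - 1) := by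
      rw [Units.val_mul]
      noncomm_ring
    change _ ∈ nil n K
    rw [h]
    exact Submodule.add_mem _ (Submodule.add_mem _ (mul_nil ha hb) ha) hb
  one_mem' := by
    change ((1 : (Matrix (Fin n) (Fin n) K)ˣ) : Matrix (Fin n) (Fin n) K) - 1 ∈ nil n K
    rw [Units.val_one, sub_self]
    exact Submodule.zero_mem _
  inv_mem' := by
    intro a ha
    exact inv_sub_one_mem a ha

variable {n K}

lemma mul_left_mem (u : U n K) {y : Matrix (Fin n) (Fin n) K} (hy : y ∈ nil n K) :
    u.1.1 * y ∈ nil n K := by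
  have h : u.1.1 * y = (u.1.1 - 1) * y + y := by noncomm_ring
  rw [h]
  exact Submodule.add_mem _ (mul_nil u.2 hy) hy

lemma mul_right_mem (v : U n K) {y : Matrix (Fin n) (Fin n) K} (hy : y ∈ nil n K) :
    y * v.1.1 ∈ nil n K := by
  have h : y * v.1.1 = y * (v.1.1 - 1) + y := by noncomm_ring
  rw [h]
  exact Submodule.add_mem _ (mul_nil hy v.2) hy

/-- The linear map `y ↦ u y v` of the strictly upper triangular matrices. -/
def act (u v : U n K) : nil n K →ₗ[K] nil n K where
  toFun y := ⟨u.1.1 * y.1 * v.1.1, mul_right_mem v (mul_left_mem u y.2)⟩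
  map_add' a b := by
    ext1
    simp only [Submodule.coe_add, mul_add, add_mul]
  map_smul' c a := by
    ext1
    simp only [Submodule.coe_smul, mul_smul_comm, smul_mul_assoc, RingHom.id_apply]

/-- `g - 1` as a strictly upper triangular matrix. -/
def sub1 (g : U n K) : nil n K := ⟨g.1.1 - 1, g.2⟩

/-- The superclass of `x`: all `g` with `g - 1 ∈ U (x - 1) U`. -/
def superclass (x : U n K) : Set (U n K) := {g | ∃ u v : U n K, sub1 g = act u v (sub1 x)}

/-- The two-sided orbit of a linear functional `l`: all functionals `y ↦ l (u y v)`. -/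
def orbit (l : Module.Dual K (nil n K)) : Set (Module.Dual K (nil n K)) :=
  {m | ∃ u v : U n K, m = l ∘ₗ act u v}

/-- The supercharacter (up to a positive factor) of the orbit of `l`. -/
noncomputable def superchar (θ : AddChar K ℂ) (l : Module.Dual K (nil n K)) (g : U n K) : ℂ :=
  ∑ᶠ m ∈ orbit l, θ (m (sub1 g))

/-- The functional `y ↦ a * y i j`. -/
def box (i j : Fin n) (a : K) : Module.Dual K (nil n K) where
  toFun y := a * y.1 i j
  map_add' y z := by
    simp only [Submodule.coe_add, Matrix.add_apply, mul_add]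
  map_smul' c y := by
    simp only [Submodule.coe_smul, Matrix.smul_apply, smul_eq_mul, RingHom.id_apply]
    ring

/-- `χ` is the single-box supercharacter of position `(i, j)` and label `a`. -/
def IsBox (θ : AddChar K ℂ) (i j : Fin n) (a : K) (χ : Irr (U n K)) : Prop :=
  ∃ c : ℝ, 0 < c ∧ ∀ g, superchar θ (box i j a) g = c * χ.1 g

variable (n K)

/-- The superclasses of the theory of `U n K`. -/
def andreC : Set (Set (U n K)) := Set.range superclass

/-- The blocks of irreducible characters: constituents of the supercharacters. -/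
def andreX (θ : AddChar K ℂ) : Set (Set (Irr (U n K))) :=
  Set.range fun l => constituents (superchar θ l)

variable {n K}

/-- The theory with character blocks `X` contains all single-box characters. -/
def HasBoxes (θ : AddChar K ℂ) (X : Set (Set (Irr (U n K)))) : Prop :=
  ∀ i j : Fin n, i < j → ∀ a : K, a ≠ 0 → ∀ χ : Irr (U n K), IsBox θ i j a χ → {χ} ∈ X

/-- `(X', C')` is coarser than or equal to `(X, C)`. -/
def Coarser {G : Type} [Group G] (X' : Set (Set (Irr G))) (C' : Set (Set G))
    (X : Set (Set (Irr G))) (C : Set (Set G)) : Prop :=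
  (∀ D ∈ C, ∃ D' ∈ C', D ⊆ D') ∧ (∀ A ∈ X, ∃ A' ∈ X', A ⊆ A')

end Pool.Agent.Y61.SC
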