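import Pool.Agent.Y61.SC.NF

/-! The theory is the coarsest one containing the single-box characters. -/

open Classical

namespace Pool.Agent.Y61.SC

open Pool.Agent.Helper884.IC (B IsClass IsIrrChar class_eq_zero B_irr cardG_ne)

section gen

variable {G : Type} [Group G] [Finite G]

/-- functions constant on the classes are combinations of the supercharacters -/
lemma combo {X : Set (Set (Irr G))} {C : Set (Set G)} (h : IsTheory X C) (f : G → ℂ)
    (hf : ∀ D ∈ C, ∀ g ∈ D, ∀ k ∈ D, f g = f k) :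
    ∃ c : X → ℂ, ∀ g, f g = ∑ A : X, c A * sig A.1 g := by
  have : Fintype G := Fintype.ofFinite G
  have hCne : ∀ D : C, ∃ g, g ∈ D.1 := fun D => Setoid.nonempty_of_mem_partition h.classes D.2
  choose pt hpt using hCne
  have hsig : ∀ A : X, ∀ D : C, ∀ g ∈ D.1, sig A.1 g = sig A.1 (pt D) := by
    intro A D g hg
    exact h.const A.1 A.2 D.1 D.2 g hg (pt D) (hpt D)
  have hblock : ∀ g : G, ∃ D : C, g ∈ D.1 := by
    intro g
    obtain ⟨D, ⟨hD, hg⟩, -⟩ := h.classes.2 g
    exact ⟨⟨D, hD⟩, hg⟩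
  let Φ : (X → ℂ) →ₗ[ℂ] (C → ℂ) :=
    { toFun := fun c D => ∑ A : X, c A * sig A.1 (pt D)
      map_add' := by
        intro c d
        funext D
        simp only [Pi.add_apply, add_mul, Finset.sum_add_distrib]
      map_smul' := by
        intro r c
        funext D
        simp only [Pi.smul_apply, smul_eq_mul, mul_assoc, Finset.mul_sum, RingHom.id_apply] }
  have hΦ : ∀ c D, Φ c D = ∑ A : X, c A * sig A.1 (pt D) := fun _ _ => rfl
  have hinj : Function.Injective Φ := by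
    rw [injective_iff_map_eq_zero]
    intro c hc
    funext A0
    have h1 : (fun g => ∑ A : X, c A * sig A.1 g) = 0 := by
      funext g
      obtain ⟨D, hD⟩ := hblock g
      have h2 := congrFun hc D
      rw [hΦ] at h2
      change _ = (0 : ℂ) at h2
      change _ = (0 : ℂ)
      rw [← h2]
      exact Finset.sum_congr rfl fun A _ => by rw [hsig A D g hD]
    obtain ⟨ψ, hψ⟩ := Setoid.nonempty_of_mem_partition h.chars A0.2
    have h2 : B (fun g => ∑ A : X, c A * sig A.1 g) ψ.1 = 0 := by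
      rw [h1, B]
      simp
    rw [B_sum] at h2
    have h3 : ∀ A : X, c A * B (sig A.1) ψ.1 = if A = A0 then c A0 * ψ.1 1 else 0 := by
      intro A
      rw [B_sig]
      by_cases hA : A = A0
      · rw [if_pos hA, hA, if_pos hψ]
      · rw [if_neg hA, if_neg, mul_zero]
        intro h4
        apply hA
        obtain ⟨A', -, hu⟩ := h.chars.2 ψ
        apply Subtype.ext
        exact (hu A.1 ⟨A.2, h4⟩).trans (hu A0.1 ⟨A0.2, hψ⟩).symm
    rw [Finset.sum_congr rfl (fun A _ => h3 A), Finset.sum_ite_eq', if_pos (Finset.mem_univ _)] at h2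
    exact (mul_eq_zero.1 h2).resolve_right (deg_ne ψ)
  have hrank : Module.finrank ℂ (X → ℂ) = Module.finrank ℂ (C → ℂ) := by
    rw [Module.finrank_fintype_fun_eq_card, Module.finrank_fintype_fun_eq_card]
    have h1 := h.card_eq
    rw [← Nat.card_coe_set_eq, ← Nat.card_coe_set_eq, Nat.card_eq_fintype_card,
      Nat.card_eq_fintype_card] at h1
    exact h1
  have hsurj : Function.Surjective Φ :=
    (LinearMap.injective_iff_surjective_of_finrank_eq_finrank hrank).1 hinj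
  obtain ⟨c, hc⟩ := hsurj (fun D => f (pt D))
  refine ⟨c, fun g => ?_⟩
  obtain ⟨D, hD⟩ := hblock g
  rw [hf D.1 D.2 g hD (pt D) (hpt D)]
  have h2 := congrFun hc D
  rw [hΦ] at h2
  rw [← h2]
  exact Finset.sum_congr rfl fun A _ => by rw [hsig A D g hD]

end gen

variable {n : ℕ} {K : Type} [Field K] [Finite K] {θ : AddChar K ℂ}

lemma isBox_unique (i j : Fin n) (a : K) (χ φ : Irr (U n K)) (h : IsBox θ i j a χ)
    (h' : IsBox θ i j a φ) : χ = φ := by
  obtain ⟨c, hc, e⟩ := h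
  obtain ⟨d, hd, e'⟩ := h'
  by_contra hne
  have h1 : ∀ g, χ.1 g = ((c : ℂ)⁻¹ * d) * φ.1 g := by
    intro g
    have h2 := (e g).symm.trans (e' g)
    have hc' : (c : ℂ) ≠ 0 := by exact_mod_cast hc.ne'
    rw [mul_assoc, ← h2, ← mul_assoc, inv_mul_cancel₀ hc', one_mul]
  have h3 := B_irr' χ χ
  rw [if_pos rfl] at h3
  have h4 := B_irr' φ χ
  rw [if_neg (Ne.symm hne)] at h4
  have h5 : B χ.1 χ.1 = ((c : ℂ)⁻¹ * d) * B φ.1 χ.1 := by
    unfold B
    simp_rw [Finset.mul_sum]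
    refine Finset.sum_congr rfl fun g _ => ?_
    conv_lhs => rw [h1 g]
    ring
  rw [h3, h4, mul_zero] at h5
  exact one_ne_zero h5

theorem exists_isBox (hθ : θ ≠ 1) (i j : Fin n) (hij : i < j) {a : K} (ha : a ≠ 0) :
    ∃ χ : Irr (U n K), IsBox θ i j a χ ∧ {χ} ∈ andreX n K θ := by
  obtain ⟨ψ, h1, h2⟩ := box_irr hθ i j hij ha
  refine ⟨ψ, ⟨Fintype.card (mid (K := K) i j), ?_, ?_⟩, ⟨box i j a, h1⟩⟩
  · exact_mod_cast (Fintype.card_pos : 0 < Fintype.card (mid (K := K) i j))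
  · intro g
    rw [h2 g]
    norm_cast

theorem coarsest (hθ : θ ≠ 1) {X : Set (Set (Irr (U n K)))} {C : Set (Set (U n K))}
    (h : IsTheory X C)
    (hbox : ∀ i j : Fin n, i < j → ∀ a : K, a ≠ 0 → ∀ χ, IsBox θ i j a χ → {χ} ∈ X) :
    (∀ D ∈ C, ∃ D' ∈ andreC n K, D ⊆ D') ∧ (∀ A ∈ X, ∃ A' ∈ andreX n K θ, A ⊆ A') := by
  have hC : ∀ D ∈ C, ∀ g ∈ D, ∀ k ∈ D, k ∈ superclass g := by
    intro D hD g hg k hk
    refine box_separate hθ g k fun i j hij a ha => ?_
    obtain ⟨χ, hχ, -⟩ := exists_isBox hθ i j hij ha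
    have h1 := h.const {χ} (hbox i j hij a ha χ hχ) D hD g hg k hk
    rw [finsum_mem_singleton, finsum_mem_singleton] at h1
    have h2 := mul_left_cancel₀ (deg_ne χ) h1
    obtain ⟨c, -, hc⟩ := hχ
    rw [hc, hc, h2]
  constructor
  · intro D hD
    obtain ⟨g, hg⟩ := Setoid.nonempty_of_mem_partition h.classes hD
    exact ⟨superclass g, ⟨g, rfl⟩, fun k hk => hC D hD g hg k hk⟩
  · intro A hA
    obtain ⟨ψ, hψ⟩ := Setoid.nonempty_of_mem_partition h.chars hA
    obtain ⟨l, hl⟩ := exists_constituent hθ ψ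
    refine ⟨_, ⟨l, rfl⟩, ?_⟩
    intro φ hφ
    have hf : ∀ D ∈ C, ∀ g ∈ D, ∀ k ∈ D, superchar θ l g = superchar θ l k := by
      intro D hD g hg k hk
      obtain ⟨u, v, hu⟩ := hC D hD g hg k hk
      rw [superchar_eq, superchar_eq, hu, Fo_act]
    obtain ⟨c, hc⟩ := combo h (superchar θ l) hf
    have hB : ∀ χ : Irr (U n K), χ ∈ A → B (superchar θ l) χ.1 = c ⟨A, hA⟩ * χ.1 1 := by
      intro χ hχ
      have h1 : superchar θ l = fun g => ∑ A : X, c A * sig A.1 g := funext hc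
      rw [h1, B_sum]
      have h3 : ∀ A' : X, c A' * B (sig A'.1) χ.1 =
          if A' = ⟨A, hA⟩ then c ⟨A, hA⟩ * χ.1 1 else 0 := by
        intro A'
        rw [B_sig]
        by_cases hA' : A' = ⟨A, hA⟩
        · rw [if_pos hA', hA', if_pos hχ]
        · rw [if_neg hA', if_neg, mul_zero]
          intro h4
          apply hA'
          obtain ⟨A'', -, hu⟩ := h.chars.2 χ
          apply Subtype.ext
          exact (hu A'.1 ⟨A'.2, h4⟩).trans (hu A ⟨hA, hχ⟩).symm
      rw [Finset.sum_congr rfl (fun A _ => h3 A), Finset.sum_ite_eq', if_pos (Finset.mem_univ _)]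
    rw [mem_constituents, hB φ hφ]
    rw [hB ψ hψ] at hl
    exact mul_ne_zero (left_ne_zero_of_mul hl) (deg_ne φ)

end Pool.Agent.Y61.SC
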