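import Pool.Agent.Y61.SC.Defs

/-! Fourier analysis on the strictly upper triangular matrices and two-sided orbits. -/

open Classical

namespace Pool.Agent.Y61.SC

variable {n : ℕ} {K : Type} [Field K]

section actl

lemma act_act (u v u' v' : U n K) (y : nil n K) :
    act u v (act u' v' y) = act (u * u') (v' * v) y := by
  apply Subtype.ext
  change u.1.1 * (u'.1.1 * y.1 * v'.1.1) * v.1.1 = (u.1.1 * u'.1.1) * y.1 * (v'.1.1 * v.1.1)
  simp only [mul_assoc]

lemma act_one (y : nil n K) : act (1 : U n K) 1 y = y := by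
  apply Subtype.ext
  change (1 : Matrix (Fin n) (Fin n) K) * y.1 * 1 = y.1
  rw [one_mul, mul_one]

lemma act_inv (u v : U n K) (y : nil n K) : act u⁻¹ v⁻¹ (act u v y) = y := by
  rw [act_act, inv_mul_cancel, mul_inv_cancel, act_one]

lemma act_inv' (u v : U n K) (y : nil n K) : act u v (act u⁻¹ v⁻¹ y) = y := by
  rw [act_act, inv_mul_cancel, mul_inv_cancel, act_one]

lemma mem_orbit_self (l : Module.Dual K (nil n K)) : l ∈ orbit l :=
  ⟨1, 1, by ext y; rw [LinearMap.comp_apply, act_one]⟩

lemma orbit_symm {l m : Module.Dual K (nil n K)} (h : m ∈ orbit l) : l ∈ orbit m := by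
  obtain ⟨u, v, rfl⟩ := h
  refine ⟨u⁻¹, v⁻¹, ?_⟩
  ext y
  simp only [LinearMap.comp_apply]
  rw [act_inv']

lemma orbit_trans {l m k : Module.Dual K (nil n K)} (h : m ∈ orbit l) (h' : k ∈ orbit m) :
    k ∈ orbit l := by
  obtain ⟨u, v, rfl⟩ := h
  obtain ⟨u', v', rfl⟩ := h'
  refine ⟨u * u', v' * v, ?_⟩
  ext y
  simp only [LinearMap.comp_apply]
  rw [act_act]

lemma orbit_eq {l m : Module.Dual K (nil n K)} (h : m ∈ orbit l) : orbit m = orbit l := by
  ext k
  exact ⟨fun h' => orbit_trans h h', fun h' => orbit_trans (orbit_symm h) h'⟩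

lemma orbit_eq_iff {l m : Module.Dual K (nil n K)} : orbit m = orbit l ↔ m ∈ orbit l :=
  ⟨fun h => h ▸ mem_orbit_self m, orbit_eq⟩

lemma comp_mem_orbit {l m : Module.Dual K (nil n K)} (h : m ∈ orbit l) (u v : U n K) :
    m ∘ₗ act u v ∈ orbit l := orbit_trans h ⟨u, v, rfl⟩

end actl

section fin

variable [Finite K]

instance finDual : Finite (Module.Dual K (nil n K)) := DFunLike.finite _

noncomputable instance ftDual : Fintype (Module.Dual K (nil n K)) := Fintype.ofFinite _

noncomputable instance ftNil : Fintype (nil n K) := Fintype.ofFinite _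

instance finU : Finite (U n K) := by
  have : Finite (Matrix (Fin n) (Fin n) K)ˣ := by infer_instance
  infer_instance

noncomputable instance ftU : Fintype (U n K) := Fintype.ofFinite _

variable {θ : AddChar K ℂ}

lemma exists_ne (hθ : θ ≠ 1) : ∃ a, θ a ≠ 1 := by
  by_contra h
  push_neg at h
  exact hθ (by ext a; rw [h a]; rfl)

lemma sum_dual (hθ : θ ≠ 1) (l : Module.Dual K (nil n K)) :
    ∑ y : nil n K, θ (l y) = if l = 0 then (Fintype.card (nil n K) : ℂ) else 0 := by
  have h := AddChar.sum_eq_ite (θ.compAddMonoidHom l.toAddMonoidHom)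
  have h1 : (θ.compAddMonoidHom l.toAddMonoidHom = 0) ↔ l = 0 := by
    constructor
    · intro h
      by_contra hl
      obtain ⟨y, hy⟩ : ∃ y, l y ≠ 0 := by
        by_contra h'
        push_neg at h'
        exact hl (LinearMap.ext h')
      obtain ⟨a, ha⟩ := exists_ne hθ
      have h2 := DFunLike.congr_fun h ((a / l y) • y)
      apply ha
      simp only [AddChar.compAddMonoidHom_apply, LinearMap.toAddMonoidHom_coe, map_smul,
        smul_eq_mul, AddChar.zero_apply] at h2
      rwa [div_mul_cancel₀ _ hy] at h2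
    · intro h
      ext y
      simp [h]
  simp only [h1] at h
  exact h

lemma sum_vec (hθ : θ ≠ 1) (y : nil n K) :
    ∑ l : Module.Dual K (nil n K), θ (l y) =
      if y = 0 then (Fintype.card (Module.Dual K (nil n K)) : ℂ) else 0 := by
  have h := AddChar.sum_eq_ite (θ.compAddMonoidHom (LinearMap.applyₗ (R := K) (M₂ := K) y).toAddMonoidHom)
  have h1 : (θ.compAddMonoidHom (LinearMap.applyₗ (R := K) (M₂ := K) y).toAddMonoidHom = 0) ↔
      y = 0 := by
    constructor
    · intro h
      by_contra hl
      obtain ⟨l, hy⟩ : ∃ l : Module.Dual K (nil n K), l y ≠ 0 := by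
        by_contra h'
        push_neg at h'
        exact hl ((Module.forall_dual_apply_eq_zero_iff K y).1 h')
      obtain ⟨a, ha⟩ := exists_ne hθ
      have h2 := DFunLike.congr_fun h ((a / l y) • l)
      apply ha
      simp only [AddChar.compAddMonoidHom_apply, LinearMap.toAddMonoidHom_coe,
        LinearMap.applyₗ_apply_apply, LinearMap.smul_apply,
        smul_eq_mul, AddChar.zero_apply] at h2
      rwa [div_mul_cancel₀ _ hy] at h2
    · intro h
      ext l
      simp [h]
  simp only [h1] at h
  exact h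

lemma card_dual : Fintype.card (Module.Dual K (nil n K)) = Fintype.card (nil n K) := by
  have : Fintype K := Fintype.ofFinite K
  rw [Module.card_eq_pow_finrank (K := K) (V := Module.Dual K (nil n K)),
    Module.card_eq_pow_finrank (K := K) (V := nil n K), Subspace.dual_finrank_eq]

/-- the sum of `θ (m y)` over the orbit of `l` -/
noncomputable def Fo (θ : AddChar K ℂ) (l : Module.Dual K (nil n K)) (y : nil n K) : ℂ :=
  ∑ m with m ∈ orbit l, θ (m y)

lemma superchar_eq (θ : AddChar K ℂ) (l : Module.Dual K (nil n K)) (g : U n K) :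
    superchar θ l g = Fo θ l (sub1 g) := by
  unfold superchar Fo
  rw [finsum_mem_eq_toFinset_sum]
  refine Finset.sum_congr ?_ fun _ _ => rfl
  ext m
  simp

lemma Fo_congr {l m : Module.Dual K (nil n K)} (h : m ∈ orbit l) : Fo θ m = Fo θ l := by
  funext y
  unfold Fo
  rw [orbit_eq h]

lemma Fo_act (l : Module.Dual K (nil n K)) (u v : U n K) (y : nil n K) :
    Fo θ l (act u v y) = Fo θ l y := by
  unfold Fo
  refine Finset.sum_bij' (fun m _ => m ∘ₗ act u v) (fun m _ => m ∘ₗ act u⁻¹ v⁻¹) ?_ ?_ ?_ ?_ ?_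
  · intro m hm
    simp only [Finset.mem_filter, Finset.mem_univ, true_and] at hm ⊢
    exact comp_mem_orbit hm u v
  · intro m hm
    simp only [Finset.mem_filter, Finset.mem_univ, true_and] at hm ⊢
    exact comp_mem_orbit hm _ _
  · intro m hm
    ext y
    simp only [LinearMap.comp_apply]
    rw [act_inv']
  · intro m hm
    ext y
    simp only [LinearMap.comp_apply]
    rw [act_inv]
  · intro m hm
    rfl

lemma Fo_conv (hθ : θ ≠ 1) (l m : Module.Dual K (nil n K)) (z : nil n K) :
    ∑ y : nil n K, Fo θ l y * Fo θ m (z - y) =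
      if m ∈ orbit l then (Fintype.card (nil n K) : ℂ) * Fo θ l z else 0 := by
  unfold Fo
  simp_rw [Finset.sum_mul_sum]
  rw [Finset.sum_comm]
  have h1 : ∀ a : Module.Dual K (nil n K), ∑ y : nil n K, ∑ b with b ∈ orbit m,
      θ (a y) * θ (b (z - y)) = if a ∈ orbit m then
        (Fintype.card (nil n K) : ℂ) * θ (a z) else 0 := by
    intro a
    rw [Finset.sum_comm]
    have h2 : ∀ b : Module.Dual K (nil n K), ∑ y : nil n K, θ (a y) * θ (b (z - y)) =
        if a = b then (Fintype.card (nil n K) : ℂ) * θ (b z) else 0 := by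
      intro b
      have h3 : ∀ y : nil n K, θ (a y) * θ (b (z - y)) = θ (b z) * θ ((a - b) y) := by
        intro y
        rw [← AddChar.map_add_eq_mul, ← AddChar.map_add_eq_mul]
        congr 1
        rw [map_sub, LinearMap.sub_apply]
        ring
      simp_rw [h3]
      rw [← Finset.mul_sum, sum_dual hθ]
      by_cases hab : a = b
      · rw [if_pos hab, if_pos (sub_eq_zero.2 hab), mul_comm]
      · rw [if_neg hab, if_neg (fun h => hab (sub_eq_zero.1 h)), mul_zero]
    simp_rw [h2]
    rw [Finset.sum_ite_eq]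
    simp only [Finset.mem_filter, Finset.mem_univ, true_and]
  rw [Finset.sum_congr rfl (fun a _ => h1 a)]
  by_cases hm : m ∈ orbit l
  · rw [if_pos hm, Finset.mul_sum]
    refine Finset.sum_congr rfl fun a ha => ?_
    rw [if_pos]
    simp only [Finset.mem_filter, Finset.mem_univ, true_and] at ha
    rwa [orbit_eq hm]
  · rw [if_neg hm]
    refine Finset.sum_eq_zero fun a ha => ?_
    rw [if_neg]
    simp only [Finset.mem_filter, Finset.mem_univ, true_and] at ha
    intro h
    exact hm (orbit_trans ha (orbit_symm h))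

end fin

end Pool.Agent.Y61.SC
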