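import Pool.Agent.Y61.SC.Box

/-! Single-box supercharacters are multiples of irreducible characters. -/

open Classical Matrix

namespace Pool.Agent.Y61.SC

open Pool.Agent.Helper884.IC (B IsClass IsIrrChar class_eq_zero B_irr cardG_ne)

variable {n : ℕ} {K : Type} [Field K]

lemma corn_entry (i j : Fin n) (hij : i < j) (s : K) (u v : U n K) :
    (act u v (cornN i j hij s)).1 i j = s := by
  rw [act_entry, Finset.sum_eq_single i, Finset.sum_eq_single j]
  · simp only [cornN, vecMulVec_apply, Pi.single_eq_same, U_entry_diag]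
    ring
  · intro q _ hq
    simp only [cornN, vecMulVec_apply]
    rw [Pi.single_eq_of_ne hq]
    ring
  · intro h
    exact absurd (Finset.mem_univ _) h
  · intro r _ hr
    refine Finset.sum_eq_zero fun q _ => ?_
    simp only [cornN, vecMulVec_apply]
    rw [Pi.single_eq_of_ne hr]
    ring
  · intro h
    exact absurd (Finset.mem_univ _) h

lemma sub1_mul_ex (g : U n K) (y : nil n K) : sub1 (g * ex y) = sub1 g + act g 1 y := by
  apply Subtype.ext
  change g.1.1 * (ex y).1.1 - 1 = (g.1.1 - 1) + g.1.1 * y.1 * 1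
  rw [ex_val]
  noncomm_ring

lemma row_col (i j : Fin n) (hij : i < j) (t c : mid (K := K) i j) :
    ex (rowN i j t) * ex (colN i j c) =
      ex (colN i j c) * ex (rowN i j t) * ex (cornN i j hij (t.1 ⬝ᵥ c.1)) := by
  apply Subtype.ext
  apply Units.ext
  change (ex (rowN i j t)).1.1 * (ex (colN i j c)).1.1 =
      (ex (colN i j c)).1.1 * (ex (rowN i j t)).1.1 * (ex (cornN i j hij (t.1 ⬝ᵥ c.1))).1.1
  rw [ex_val, ex_val, ex_val]
  have h1 : (rowN i j t).1 * (colN i j c).1 = (cornN i j hij (t.1 ⬝ᵥ c.1)).1 := by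
    simp only [rowN, colN, cornN, vecMulVec_mul_vecMulVec]
    ext r s
    simp only [vecMulVec_apply, Pi.smul_apply, smul_eq_mul]
    by_cases hr : r = i
    · subst hr
      simp only [Pi.single_eq_same, one_mul]
    · simp only [Pi.single_eq_of_ne hr, zero_mul]
  have h2 : (colN i j c).1 * (rowN i j t).1 = 0 := by
    simp only [rowN, colN, vecMulVec_mul_vecMulVec, single_dotProduct, one_mul]
    rw [Pi.single_eq_of_ne hij.ne', zero_smul, vecMulVec_zero]
  have h3 : (colN i j c).1 * (cornN i j hij (t.1 ⬝ᵥ c.1)).1 = 0 := by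
    simp only [cornN, colN, vecMulVec_mul_vecMulVec, single_dotProduct, one_mul]
    rw [Pi.single_eq_of_ne hij.ne', zero_smul, vecMulVec_zero]
  have h4 : (rowN i j t).1 * (cornN i j hij (t.1 ⬝ᵥ c.1)).1 = 0 := by
    simp only [rowN, cornN, vecMulVec_mul_vecMulVec, dotProduct_single]
    rw [t.2 i (fun h => absurd h.1 (lt_irrefl _)), zero_mul, zero_smul, vecMulVec_zero]
  have e1 : (1 + (rowN i j t).1) * (1 + (colN i j c).1) =
      1 + (rowN i j t).1 + (colN i j c).1 + (rowN i j t).1 * (colN i j c).1 := by noncomm_ring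
  have e2 : (1 + (colN i j c).1) * (1 + (rowN i j t).1) =
      1 + (rowN i j t).1 + (colN i j c).1 + (colN i j c).1 * (rowN i j t).1 := by noncomm_ring
  rw [e1, e2, h1, h2, add_zero, mul_add, mul_one, add_mul, add_mul, one_mul, h3, h4, add_zero,
    add_zero]

lemma col_col (i j : Fin n) (c c' : mid (K := K) i j) :
    ex (colN i j c) * ex (colN i j c') = ex (colN i j (c + c')) := by
  rw [eq_ex_iff]
  change (ex (colN i j c)).1.1 * (ex (colN i j c')).1.1 = _
  rw [ex_val, ex_val]
  have h2 : (colN i j c).1 * (colN i j c').1 = 0 := by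
    simp only [colN, vecMulVec_mul_vecMulVec, single_dotProduct, one_mul]
    rw [c'.2 j (fun h => absurd h.2 (lt_irrefl _)), zero_smul, vecMulVec_zero]
  have h3 : (colN i j (c + c')).1 = (colN i j c).1 + (colN i j c').1 := by
    simp only [colN, Submodule.coe_add, add_vecMulVec]
  have e1 : (1 + (colN i j c).1) * (1 + (colN i j c').1) =
      1 + ((colN i j c).1 + (colN i j c').1) + (colN i j c).1 * (colN i j c').1 := by noncomm_ring
  rw [e1, h2, add_zero, h3]

lemma col_zero (i j : Fin n) : ex (colN i j (0 : mid (K := K) i j)) = 1 := by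
  symm
  rw [eq_ex_iff]
  change (1 : Matrix (Fin n) (Fin n) K) = 1 + vecMulVec (0 : Fin n → K) (Pi.single j 1)
  rw [zero_vecMulVec, add_zero]

section

variable [Finite K] {θ : AddChar K ℂ}

lemma sum_mid (hθ : θ ≠ 1) (i j : Fin n) (w : mid (K := K) i j) :
    ∑ c : mid (K := K) i j, θ (w.1 ⬝ᵥ c.1) =
      if w = 0 then (Fintype.card (mid (K := K) i j) : ℂ) else 0 := by
  let f : mid (K := K) i j →+ K :=
    { toFun := fun c => w.1 ⬝ᵥ c.1
      map_zero' := by simp
      map_add' := by
        intro x y
        simp [dotProduct_add] }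
  have h := AddChar.sum_eq_ite (θ.compAddMonoidHom f)
  have h1 : (θ.compAddMonoidHom f = 0) ↔ w = 0 := by
    constructor
    · intro h
      apply Subtype.ext
      funext k
      by_cases hk : i < k ∧ k < j
      · by_contra hw
        obtain ⟨a, ha⟩ := exists_ne hθ
        let c : mid (K := K) i j := ⟨Pi.single k (a / w.1 k), by
          intro r hr
          rw [Pi.single_eq_of_ne]
          rintro rfl
          exact hr hk⟩
        have h2 := DFunLike.congr_fun h c
        apply ha
        have h3 : f c = a := by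
          change w.1 ⬝ᵥ Pi.single k (a / w.1 k) = a
          rw [dotProduct_single, mul_div_cancel₀]
          exact hw
        rw [AddChar.compAddMonoidHom_apply, h3, AddChar.zero_apply] at h2
        exact h2
      · rw [w.2 k hk]
        rfl
    · intro h
      ext y
      simp [f, h]
  simp only [h1] at h
  exact h

lemma super_mul_corn (i j : Fin n) (hij : i < j) (a s : K) (g : U n K) :
    superchar θ (box i j a) (g * ex (cornN i j hij s)) =
      θ (a * s) * superchar θ (box i j a) g := by
  rw [superchar_eq, superchar_eq, sub1_mul_ex]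
  unfold Fo
  rw [Finset.mul_sum]
  refine Finset.sum_congr rfl fun m hm => ?_
  simp only [Finset.mem_filter, Finset.mem_univ, true_and] at hm
  obtain ⟨u, v, rfl⟩ := hm
  rw [map_add, AddChar.map_add_eq_mul, mul_comm]
  congr 2
  rw [LinearMap.comp_apply, act_act]
  change a * (act _ _ (cornN i j hij s)).1 i j = a * s
  rw [corn_entry]

theorem card_mid_le (hθ : θ ≠ 1) (i j : Fin n) (hij : i < j) {a : K} (ha : a ≠ 0)
    {V : Type} [AddCommGroup V] [Module ℂ V] [FiniteDimensional ℂ V]
    (ρ : Representation ℂ (U n K) V) (hρ : ρ.IsIrreducible)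
    (hB : B (superchar θ (box i j a)) ρ.character ≠ 0) :
    Fintype.card (mid (K := K) i j) ≤ Module.finrank ℂ V := by
  have hirr := hρ
  set l : Module.Dual K (nil n K) := box i j a with hl
  obtain ⟨c0, hc0⟩ := Tp_scalar ρ (superchar θ l) (super_class l)
  have hc : c0 ≠ 0 := by
    intro h
    have h1 := trace_Tp ρ (superchar θ l)
    rw [hc0, h, zero_smul, map_zero] at h1
    exact (mul_ne_zero cardG_ne hB) h1.symm
  have hVn : Nontrivial V := by
    by_contra hn
    rw [not_nontrivial_iff_subsingleton] at hn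
    have : Subsingleton (Subrepresentation ρ) := by
      constructor
      intro a b
      ext x
      have : x = 0 := Subsingleton.elim _ _
      subst this
      simp
    have h5 := hρ.toNontrivial
    exact not_subsingleton (Subrepresentation ρ) this
  -- the corner acts by scalars
  have hz : ∀ s v, ρ (ex (cornN i j hij s)) v = θ (a * s) • v := by
    intro s v
    have h1 : ρ (ex (cornN i j hij s)) * Tp ρ (superchar θ l) =
        θ (a * s) • Tp ρ (superchar θ l) := by
      unfold Tp Pool.Agent.Helper884.IC.Top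
      rw [Finset.mul_sum, Finset.smul_sum]
      refine Fintype.sum_equiv (Equiv.mulRight (ex (cornN i j hij s))⁻¹) _ _ ?_
      intro g
      have h2 := super_mul_corn (θ := θ) i j hij a s (g * (ex (cornN i j hij s))⁻¹)
      rw [inv_mul_cancel_right] at h2
      simp only [Equiv.coe_mulRight, _root_.mul_inv_rev, inv_inv, map_mul, mul_smul_comm, hl, h2,
        mul_smul]
    rw [hc0] at h1
    have h2 := congrArg (fun T : V →ₗ[ℂ] V => T v) h1
    simp only [Module.End.mul_apply, LinearMap.smul_apply, LinearMap.id_apply, map_smul] at h2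
    rw [smul_comm] at h2
    exact smul_right_injective V hc h2
  obtain ⟨x, hx⟩ := _root_.exists_ne (0 : V)
  -- a joint eigenvector
  have hex : ∃ (d : mid (K := K) i j) (v : V), v ≠ 0 ∧
      ∀ c : mid (K := K) i j, ρ (ex (colN i j c)) v = θ (d.1 ⬝ᵥ c.1) • v := by
    let P : mid (K := K) i j → V := fun d =>
      ∑ c : mid (K := K) i j, θ (-(d.1 ⬝ᵥ c.1)) • ρ (ex (colN i j c)) x
    have hsum : ∑ d, P d = (Fintype.card (mid (K := K) i j) : ℂ) • x := by
      simp only [P]
      rw [Finset.sum_comm]
      have h1 : ∀ c : mid (K := K) i j, ∑ d : mid (K := K) i j,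
          θ (-(d.1 ⬝ᵥ c.1)) • ρ (ex (colN i j c)) x =
          if c = 0 then (Fintype.card (mid (K := K) i j) : ℂ) • x else 0 := by
        intro c
        rw [← Finset.sum_smul]
        have h2 := sum_mid hθ i j (-c)
        have h3 : ∑ d : mid (K := K) i j, θ (-(d.1 ⬝ᵥ c.1)) =
            ∑ d : mid (K := K) i j, θ ((-c).1 ⬝ᵥ d.1) := by
          refine Finset.sum_congr rfl fun d _ => ?_
          congr 1
          rw [Submodule.coe_neg, neg_dotProduct, dotProduct_comm]
        rw [h3, h2]
        by_cases h : c = 0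
        · rw [if_pos h, if_pos (by rw [h, neg_zero]), h, col_zero, map_one]
          rfl
        · rw [if_neg h, if_neg (by rwa [neg_eq_zero]), zero_smul]
      rw [Finset.sum_congr rfl (fun c _ => h1 c), Finset.sum_ite_eq', if_pos (Finset.mem_univ _)]
    have hne : ∃ d, P d ≠ 0 := by
      by_contra h
      push Not at h
      rw [Finset.sum_eq_zero (fun d _ => h d)] at hsum
      have hcard : (Fintype.card (mid (K := K) i j) : ℂ) ≠ 0 := by
        exact_mod_cast Fintype.card_ne_zero
      exact hx ((smul_eq_zero.1 hsum.symm).resolve_left hcard)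
    obtain ⟨d, hd⟩ := hne
    refine ⟨d, P d, hd, ?_⟩
    intro c
    simp only [P]
    rw [map_sum, Finset.smul_sum]
    refine Fintype.sum_equiv (Equiv.addLeft c) _ _ ?_
    intro c'
    simp only [Equiv.coe_addLeft, map_smul]
    rw [← Module.End.mul_apply, ← map_mul, col_col, smul_smul, ← AddChar.map_add_eq_mul]
    congr 2
    rw [Submodule.coe_add, dotProduct_add]
    ring
  obtain ⟨d, v, hv, hev⟩ := hex
  -- the translates
  have htr : ∀ (t c : mid (K := K) i j), ρ (ex (colN i j c)) (ρ (ex (rowN i j t)) v) =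
      θ ((d - a • t).1 ⬝ᵥ c.1) • ρ (ex (rowN i j t)) v := by
    intro t c
    have h1 := congrArg (fun g => ρ g v) (row_col i j hij t c)
    simp only [map_mul, Module.End.mul_apply, hev, hz, map_smul] at h1
    have h2 : ρ (ex (colN i j c)) (ρ (ex (rowN i j t)) v) =
        θ (-(a * (t.1 ⬝ᵥ c.1))) • (θ (d.1 ⬝ᵥ c.1) • ρ (ex (rowN i j t)) v) := by
      rw [h1, smul_smul, ← AddChar.map_add_eq_mul, neg_add_cancel, AddChar.map_zero_eq_one,
        one_smul]
    rw [h2, smul_smul, ← AddChar.map_add_eq_mul]
    congr 2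
    rw [Submodule.coe_sub, Submodule.coe_smul, sub_dotProduct, smul_dotProduct, smul_eq_mul]
    ring
  have hnz : ∀ t : mid (K := K) i j, ρ (ex (rowN i j t)) v ≠ 0 := by
    intro t h
    apply hv
    have h1 := congrArg (ρ (ex (rowN i j t))⁻¹) h
    rw [map_zero, ← Module.End.mul_apply, ← map_mul, inv_mul_cancel, map_one] at h1
    exact h1
  have hli : LinearIndependent ℂ (fun t : mid (K := K) i j => ρ (ex (rowN i j t)) v) := by
    rw [Fintype.linearIndependent_iff]
    intro α hα s
    have h1 := congrArg (fun w => ∑ c : mid (K := K) i j,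
      θ (-((d - a • s).1 ⬝ᵥ c.1)) • ρ (ex (colN i j c)) w) hα
    simp only [map_sum, map_smul, htr, map_zero, smul_zero, Finset.sum_const_zero,
      Finset.smul_sum] at h1
    rw [Finset.sum_comm] at h1
    have h2 : ∀ t : mid (K := K) i j, ∑ c : mid (K := K) i j,
        θ (-((d - a • s).1 ⬝ᵥ c.1)) • α t • θ ((d - a • t).1 ⬝ᵥ c.1) •
          ρ (ex (rowN i j t)) v = if t = s then
          ((Fintype.card (mid (K := K) i j) : ℂ) * α s) • ρ (ex (rowN i j s)) v else 0 := by
      intro t
      have h3 : ∀ c : mid (K := K) i j, θ (-((d - a • s).1 ⬝ᵥ c.1)) • α t •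
          θ ((d - a • t).1 ⬝ᵥ c.1) • ρ (ex (rowN i j t)) v =
          θ ((a • (s - t)).1 ⬝ᵥ c.1) • (α t • ρ (ex (rowN i j t)) v) := by
        intro c
        rw [smul_comm (α t), smul_smul, ← AddChar.map_add_eq_mul]
        congr 2
        simp only [Submodule.coe_sub, Submodule.coe_smul, sub_dotProduct, smul_dotProduct,
          smul_eq_mul]
        ring
      rw [Finset.sum_congr rfl (fun c _ => h3 c), ← Finset.sum_smul, sum_mid hθ]
      by_cases h : t = s
      · rw [if_pos h, if_pos (by rw [h, sub_self, smul_zero]), h, smul_smul]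
      · rw [if_neg h, if_neg, zero_smul]
        intro h4
        rcases smul_eq_zero.1 h4 with h5 | h5
        · exact ha h5
        · exact h (sub_eq_zero.1 h5).symm
    rw [Finset.sum_congr rfl (fun t _ => h2 t), Finset.sum_ite_eq', if_pos (Finset.mem_univ _)] at h1
    have hcard : (Fintype.card (mid (K := K) i j) : ℂ) ≠ 0 := by
      exact_mod_cast Fintype.card_ne_zero
    exact (mul_eq_zero.1 ((smul_eq_zero.1 h1).resolve_right (hnz s))).resolve_left hcard
  exact hli.fintype_card_le_finrank

/-- the single-box supercharacter is a positive multiple of an irreducible character -/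
theorem box_irr (hθ : θ ≠ 1) (i j : Fin n) (hij : i < j) {a : K} (ha : a ≠ 0) :
    ∃ ψ : Irr (U n K), constituents (superchar θ (box i j a)) = {ψ} ∧
      ∀ g, superchar θ (box i j a) g = (Fintype.card (mid (K := K) i j) : ℂ) * ψ.1 g := by
  have hM : ∀ ψ : Irr (U n K), ψ ∈ constituents (superchar θ (box i j a)) →
      ∃ d : ℕ, Fintype.card (mid (K := K) i j) ≤ d ∧ ψ.1 1 = d := by
    intro ψ hψ
    rw [mem_constituents] at hψ
    obtain ⟨χ, V, i1, i2, i3, ρ, hρ, rfl⟩ := ψ
    exact ⟨Module.finrank ℂ V, card_mid_le hθ i j hij ha ρ hρ hψ, ρ.char_one⟩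
  have hd : ∀ ψ : Irr (U n K), ∃ d : ℕ, ψ.1 1 = d := fun ψ => by
    obtain ⟨d, _, h⟩ := char_one_eq ψ
    exact ⟨d, h⟩
  choose d hd using hd
  have hMd : ∀ ψ : Irr (U n K), ψ ∈ constituents (superchar θ (box i j a)) →
      Fintype.card (mid (K := K) i j) ≤ d ψ := by
    intro ψ hψ
    obtain ⟨e, he, he'⟩ := hM ψ hψ
    rw [hd ψ] at he'
    have : d ψ = e := by exact_mod_cast he'
    omega
  have hsum : ∑ ψ with ψ ∈ constituents (superchar θ (box i j a)), d ψ ^ 2 =
      Fintype.card (mid (K := K) i j) ^ 2 := by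
    have h1 := congrFun (super_eq_sig hθ (box (n := n) i j a)) 1
    have h2 : sub1 (1 : U n K) = 0 := by
      apply Subtype.ext
      change (1 : Matrix (Fin n) (Fin n) K) - 1 = 0
      rw [sub_self]
    rw [sig_eq, superchar_eq, h2, card_orbit_box i j hij ha] at h1
    have h3 : ((∑ ψ with ψ ∈ constituents (superchar θ (box i j a)), d ψ ^ 2 : ℕ) : ℂ) =
        ((Fintype.card (mid (K := K) i j) ^ 2 : ℕ) : ℂ) := by
      push_cast
      rw [h1]
      refine Finset.sum_congr rfl fun ψ _ => ?_
      rw [hd ψ]
      ring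
    exact_mod_cast h3
  have hpos : 0 < Fintype.card (mid (K := K) i j) := Fintype.card_pos
  obtain ⟨ψ, hψ⟩ := constituents_nonempty hθ (box (n := n) i j a)
  have huniq : ∀ φ ∈ constituents (superchar θ (box i j a)), φ = ψ := by
    intro φ hφ
    by_contra hne
    have h1 : d φ ^ 2 + d ψ ^ 2 ≤
        ∑ ψ with ψ ∈ constituents (superchar θ (box i j a)), d ψ ^ 2 := by
      rw [← Finset.sum_pair (f := fun x => d x ^ 2) hne]
      refine Finset.sum_le_sum_of_subset ?_
      intro x hx
      simp only [Finset.mem_insert, Finset.mem_singleton] at hx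
      simp only [Finset.mem_filter, Finset.mem_univ, true_and]
      rcases hx with rfl | rfl
      · exact hφ
      · exact hψ
    have h2 := hMd φ hφ
    have h3 := hMd ψ hψ
    rw [hsum] at h1
    nlinarith
  have hset : constituents (superchar θ (box i j a)) = {ψ} := by
    ext φ
    constructor
    · intro h
      exact huniq φ h
    · rintro rfl
      exact hψ
  refine ⟨ψ, hset, ?_⟩
  have hdψ : d ψ = Fintype.card (mid (K := K) i j) := by
    have h1 : (Finset.univ.filter fun φ => φ ∈ constituents (superchar θ (box i j a))) = {ψ} := by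
      ext φ
      rw [hset]
      simp
    rw [h1, Finset.sum_singleton] at hsum
    have h2 := hMd ψ hψ
    nlinarith
  intro g
  have h1 := congrFun (super_eq_sig hθ (box (n := n) i j a)) g
  rw [h1, sig_eq, hset]
  simp only [Set.mem_singleton_iff, Finset.filter_eq', Finset.mem_univ, if_true,
    Finset.sum_singleton]
  rw [hd ψ, hdψ]

end

end Pool.Agent.Y61.SC
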