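import Pool.Agent.Y61.SC.Irred

/-! Normal forms for two-sided orbits, and separation of superclasses by single-box characters. -/

open Classical Matrix

namespace Pool.Agent.Y61.SC

variable {n : ℕ} {K : Type} [Field K]

/-- at most one nonzero entry in each row and each column -/
def IsNF (z : Matrix (Fin n) (Fin n) K) : Prop :=
  (∀ i j j', z i j ≠ 0 → z i j' ≠ 0 → j = j') ∧ (∀ i i' j, z i j ≠ 0 → z i' j ≠ 0 → i = i')

lemma step_entry (i j : Fin n) (α β : Fin n → K) (hα : vecMulVec α (Pi.single i 1) ∈ nil n K)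
    (hβ : vecMulVec (Pi.single j 1) β ∈ nil n K) (y : nil n K) (k l : Fin n) :
    (act (ex ⟨_, hα⟩) (ex ⟨_, hβ⟩) y).1 k l =
      y.1 k l + α k * y.1 i l + (y.1 k j + α k * y.1 i j) * β l := by
  change ((ex ⟨_, hα⟩).1.1 * y.1 * (ex ⟨_, hβ⟩).1.1) k l = _
  rw [ex_val, ex_val]
  simp only [add_mul, mul_add, one_mul, mul_one, Matrix.add_apply, vecMulVec_mul, mul_vecMulVec,
    single_one_vecMul, vecMulVec_apply]
  simp only [Matrix.row_apply, mulVec_single_one, Matrix.col_apply,
    vecMulVec_apply, Matrix.add_apply]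

/-- the rows `≥ m` are in normal form and their pivots are alone in their columns -/
def RowNF (m : ℕ) (z : Matrix (Fin n) (Fin n) K) : Prop :=
  ∀ i : Fin n, m ≤ i → (∀ j j', z i j ≠ 0 → z i j' ≠ 0 → j = j') ∧
    (∀ k j, z i j ≠ 0 → z k j ≠ 0 → k = i)

lemma rowNF_step (m : ℕ) (hm : m < n) (y : nil n K) (hy : RowNF (m + 1) y.1) :
    ∃ u v : U n K, RowNF m (act u v y).1 := by
  by_cases hrow : ∀ l, y.1 ⟨m, hm⟩ l = 0
  · refine ⟨1, 1, ?_⟩
    rw [act_one]
    intro i hi
    by_cases h : m + 1 ≤ (i : ℕ)
    · exact hy i h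
    · have hi' : i = ⟨m, hm⟩ := Fin.ext (by simp only; omega)
      subst hi'
      exact ⟨fun j j' hj _ => absurd (hrow j) hj, fun k j hj _ => absurd (hrow j) hj⟩
  · push Not at hrow
    set i : Fin n := ⟨m, hm⟩ with hi
    -- the leftmost nonzero entry
    obtain ⟨j, hj, hjmin⟩ : ∃ j, y.1 i j ≠ 0 ∧ ∀ l, l < j → y.1 i l = 0 := by
      have hne : (Finset.univ.filter fun l => y.1 i l ≠ 0).Nonempty := by
        obtain ⟨l, hl⟩ := hrow
        exact ⟨l, by simp [hl]⟩
      refine ⟨(Finset.univ.filter fun l => y.1 i l ≠ 0).min' hne, ?_, ?_⟩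
      · have := Finset.min'_mem _ hne
        simpa using this
      · intro l hl
        by_contra h
        have := Finset.min'_le _ l (by simp [h] : l ∈ Finset.univ.filter fun l => y.1 i l ≠ 0)
        exact absurd hl (not_lt.2 this)
    have hα : vecMulVec (fun k => if k < i then -(y.1 k j) / y.1 i j else 0) (Pi.single i 1) ∈
        nil n K := by
      intro r s hrs
      rw [vecMulVec_apply]
      by_cases h : s = i
      · subst h
        rw [if_neg (not_lt.2 hrs), zero_mul]
      · rw [Pi.single_eq_of_ne h, mul_zero]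
    have hβ : vecMulVec (Pi.single j 1) (fun l => if j < l then -(y.1 i l) / y.1 i j else 0) ∈
        nil n K := by
      intro r s hrs
      rw [vecMulVec_apply]
      by_cases h : r = j
      · subst h
        rw [if_neg (not_lt.2 hrs), mul_zero]
      · rw [Pi.single_eq_of_ne h, zero_mul]
    refine ⟨ex ⟨_, hα⟩, ex ⟨_, hβ⟩, ?_⟩
    set Z := (act (ex ⟨_, hα⟩) (ex ⟨_, hβ⟩) y).1 with hZ
    have hent : ∀ k l, Z k l = y.1 k l + (if k < i then -(y.1 k j) / y.1 i j else 0) * y.1 i l +
        (y.1 k j + (if k < i then -(y.1 k j) / y.1 i j else 0) * y.1 i j) *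
          (if j < l then -(y.1 i l) / y.1 i j else 0) := fun k l => step_entry i j _ _ hα hβ y k l
    -- rows below
    have hbelow0 : ∀ k, i < k → y.1 k j = 0 := by
      intro k hk
      by_contra h
      have h1 : m + 1 ≤ (k : ℕ) := by
        have : (i : ℕ) < k := hk
        simp only [hi] at this
        omega
      exact (ne_of_lt hk) ((hy k h1).2 i j h hj)
    have hbelow : ∀ k l, i < k → Z k l = y.1 k l := by
      intro k l hk
      rw [hent, if_neg (not_lt.2 hk.le), hbelow0 k hk]
      ring
    have hrowi : ∀ l, l ≠ j → Z i l = 0 := by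
      intro l hl
      rw [hent, if_neg (lt_irrefl i)]
      rcases lt_or_gt_of_ne hl with h | h
      · rw [hjmin l h, if_neg (not_lt.2 h.le)]
        ring
      · rw [if_pos h]
        field_simp
        ring
    have habove : ∀ k, k < i → Z k j = 0 := by
      intro k hk
      rw [hent, if_pos hk, if_neg (lt_irrefl j)]
      field_simp
      ring
    have habove' : ∀ k l, k < i → Z k l = y.1 k l + (-(y.1 k j) / y.1 i j) * y.1 i l := by
      intro k l hk
      rw [hent, if_pos hk]
      have : y.1 k j + -(y.1 k j) / y.1 i j * y.1 i j = 0 := by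
        field_simp
        ring
      rw [this]
      ring
    intro r hr
    rcases eq_or_lt_of_le hr with h | h
    · have hri : r = i := Fin.ext (by simp only [hi]; omega)
      rw [hri]
      constructor
      · intro a b ha hb
        rw [show a = j from by_contra fun h => ha (hrowi a h),
          show b = j from by_contra fun h => hb (hrowi b h)]
      · intro k a ha hk
        have haj : a = j := by_contra fun h => ha (hrowi a h)
        subst haj
        rcases lt_trichotomy k i with h1 | h1 | h1
        · exact absurd (habove k h1) hk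
        · exact h1
        · exact absurd (by rw [hbelow k a h1, hbelow0 k h1]) hk
    · have hir : i < r := by
        rw [Fin.lt_def]
        simp only [hi]
        omega
      have h2 := hy r (by omega)
      constructor
      · intro a b ha hb
        rw [hbelow r _ hir] at ha hb
        exact h2.1 a b ha hb
      · intro k a ha hk
        rw [hbelow r _ hir] at ha
        rcases lt_trichotomy k i with h1 | h1 | h1
        · exfalso
          have e1 : y.1 k a = 0 := by
            by_contra h3
            exact (ne_of_lt (h1.trans hir)) (h2.2 k a ha h3)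
          have e2 : y.1 i a = 0 := by
            by_contra h3
            exact (ne_of_lt hir) (h2.2 i a ha h3)
          rw [habove' k a h1, e1, e2] at hk
          exact hk (by ring)
        · exfalso
          subst h1
          have haj : a = j := by_contra fun h => hk (hrowi a h)
          subst haj
          exact ha (hbelow0 r hir)
        · rw [hbelow k _ h1] at hk
          exact h2.2 k a ha hk

lemma exists_rowNF (y : nil n K) (m : ℕ) (hm : m ≤ n) :
    ∃ u v : U n K, RowNF (n - m) (act u v y).1 := by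
  induction m with
  | zero =>
    refine ⟨1, 1, ?_⟩
    intro i hi
    exact absurd i.2 (by omega)
  | succ m ih =>
    obtain ⟨u, v, h⟩ := ih (by omega)
    have h1 : n - m = (n - (m + 1)) + 1 := by omega
    rw [h1] at h
    obtain ⟨u', v', h'⟩ := rowNF_step (n - (m + 1)) (by omega) _ h
    rw [act_act] at h'
    exact ⟨_, _, h'⟩

lemma exists_NF (y : nil n K) : ∃ u v : U n K, IsNF (act u v y).1 := by
  obtain ⟨u, v, h⟩ := exists_rowNF y n le_rfl
  rw [Nat.sub_self] at h
  refine ⟨u, v, fun i j j' h1 h2 => (h i (Nat.zero_le _)).1 j j' h1 h2,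
    fun i i' j h1 h2 => ((h i (Nat.zero_le _)).2 i' j h1 h2).symm⟩

section

variable [Finite K] {θ : AddChar K ℂ}

lemma midRow_dot (i j : Fin n) (r : Fin n → K) (w : mid (K := K) i j) :
    r ⬝ᵥ w.1 = (midRow i j r).1 ⬝ᵥ w.1 := by
  rw [dotProduct, dotProduct]
  refine Finset.sum_congr rfl fun k _ => ?_
  by_cases h : i < k ∧ k < j
  · simp only [midRow, if_pos h]
  · rw [w.2 k h, mul_zero, mul_zero]

lemma sum_w (hθ : θ ≠ 1) (i j : Fin n) {a : K} (ha : a ≠ 0) (r : Fin n → K) :
    ∑ w : mid (K := K) i j, θ (a * (r ⬝ᵥ (Pi.single j 1 + w.1))) =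
      θ (a * r j) * if midRow i j r = 0 then (Fintype.card (mid (K := K) i j) : ℂ) else 0 := by
  have h1 : ∀ w : mid (K := K) i j, θ (a * (r ⬝ᵥ (Pi.single j 1 + w.1))) =
      θ (a * r j) * θ ((a • midRow i j r).1 ⬝ᵥ w.1) := by
    intro w
    rw [← AddChar.map_add_eq_mul]
    congr 1
    rw [dotProduct_add, dotProduct_single, mul_one, midRow_dot, Submodule.coe_smul,
      smul_dotProduct, smul_eq_mul]
    ring
  rw [Finset.sum_congr rfl (fun w _ => h1 w), ← Finset.mul_sum, sum_mid hθ]
  congr 1
  by_cases h : midRow i j r = 0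
  · rw [if_pos h, if_pos (by rw [h, smul_zero])]
  · rw [if_neg h, if_neg]
    intro h2
    exact (smul_eq_zero.1 h2).elim ha h

lemma Fo_box' (hθ : θ ≠ 1) (i j : Fin n) (hij : i < j) {a : K} (ha : a ≠ 0) (z : nil n K) :
    Fo θ (box i j a) z = ∑ x : mid (K := K) i j,
      θ (a * ((Pi.single i 1 + x.1) ᵥ* z.1) j) *
        if midRow i j ((Pi.single i 1 + x.1) ᵥ* z.1) = 0 then
          (Fintype.card (mid (K := K) i j) : ℂ) else 0 := by
  rw [Fo_box i j hij ha]
  refine Finset.sum_congr rfl fun x _ => ?_
  rw [← sum_w hθ i j ha]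
  refine Finset.sum_congr rfl fun w _ => ?_
  rw [dotProduct_mulVec]

lemma eval_NF (hθ : θ ≠ 1) (i j : Fin n) (hij : i < j) {a : K} (ha : a ≠ 0) (z : nil n K)
    (hz : IsNF z.1) :
    ∃ R : ℝ, 0 ≤ R ∧ Fo θ (box i j a) z = θ (a * z.1 i j) * R ∧ (z.1 i j ≠ 0 → 0 < R) := by
  by_cases hcol : ∃ k, i < k ∧ k < j ∧ z.1 k j ≠ 0
  · obtain ⟨k, hik, hkj, hk⟩ := hcol
    refine ⟨0, le_rfl, ?_, fun h => absurd (hz.2 i k j h hk) hik.ne⟩
    obtain ⟨b, hb⟩ := exists_ne hθ
    let e : K → mid (K := K) i j := fun s => ⟨Pi.single k s, by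
      intro r hr
      rw [Pi.single_eq_of_ne]
      rintro rfl
      exact hr ⟨hik, hkj⟩⟩
    have hshift : ∀ (s : K) (x : mid (K := K) i j) (l : Fin n),
        ((Pi.single i 1 + (x + e s).1) ᵥ* z.1) l =
          ((Pi.single i 1 + x.1) ᵥ* z.1) l + s * z.1 k l := by
      intro s x l
      have h1 : (Pi.single i 1 + (x + e s).1 : Fin n → K) = (Pi.single i 1 + x.1) +
          Pi.single k s := by
        rw [Submodule.coe_add]
        simp only [e]
        rw [add_assoc]
      rw [h1, add_vecMul, Pi.add_apply, single_vecMul]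
      simp [Matrix.row_apply]
    have hmid : ∀ (s : K) (x : mid (K := K) i j),
        midRow i j ((Pi.single i 1 + (x + e s).1) ᵥ* z.1) =
          midRow i j ((Pi.single i 1 + x.1) ᵥ* z.1) := by
      intro s x
      apply Subtype.ext
      funext l
      simp only [midRow]
      by_cases hl : i < l ∧ l < j
      · rw [if_pos hl, if_pos hl, hshift]
        have : z.1 k l = 0 := by
          by_contra h
          exact hl.2.ne (hz.1 k l j h hk)
        rw [this, mul_zero, add_zero]
      · rw [if_neg hl, if_neg hl]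
    have key : ∀ s : K, Fo θ (box i j a) z = θ (a * (s * z.1 k j)) * Fo θ (box i j a) z := by
      intro s
      rw [Fo_box' hθ i j hij ha, Finset.mul_sum]
      symm
      refine Fintype.sum_equiv (Equiv.addRight (e s)) _ _ ?_
      intro x
      simp only [Equiv.coe_addRight, hmid, hshift, mul_add, AddChar.map_add_eq_mul]
      ring
    have h1 := key (b / (a * z.1 k j))
    have h2 : a * (b / (a * z.1 k j) * z.1 k j) = b := by
      field_simp
    rw [h2] at h1
    have h3 : (1 - θ b) * Fo θ (box i j a) z = 0 := by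
      rw [sub_mul, one_mul, ← h1, sub_self]
    rw [(mul_eq_zero.1 h3).resolve_left (sub_ne_zero.2 (Ne.symm hb))]
    simp
  · push Not at hcol
    set S := Finset.univ.filter fun x : mid (K := K) i j =>
      midRow i j ((Pi.single i 1 + x.1) ᵥ* z.1) = 0 with hS
    refine ⟨(S.card : ℝ) * Fintype.card (mid (K := K) i j), by positivity, ?_, ?_⟩
    · rw [Fo_box' hθ i j hij ha]
      have h1 : ∀ x : mid (K := K) i j, ((Pi.single i 1 + x.1) ᵥ* z.1) j = z.1 i j := by
        intro x
        rw [add_vecMul, Pi.add_apply, single_one_vecMul]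
        have h2 : (x.1 ᵥ* z.1) j = 0 := by
          rw [vecMul, dotProduct]
          refine Finset.sum_eq_zero fun k _ => ?_
          by_cases hk : i < k ∧ k < j
          · rw [hcol k hk.1 hk.2, mul_zero]
          · rw [x.2 k hk, zero_mul]
        rw [h2, add_zero]
        rfl
      simp_rw [h1]
      rw [← Finset.mul_sum, ← Finset.sum_filter, Finset.sum_const, nsmul_eq_mul]
      push_cast
      rfl
    · intro hne
      have h0 : (0 : mid (K := K) i j) ∈ S := by
        rw [hS]
        simp only [Finset.mem_filter, Finset.mem_univ, true_and]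
        apply Subtype.ext
        funext l
        simp only [midRow, Submodule.coe_zero, add_zero, single_one_vecMul]
        by_cases hl : i < l ∧ l < j
        · rw [if_pos hl]
          change z.1 i l = 0
          by_contra h
          exact hl.2.ne (hz.1 i l j h hne)
        · rw [if_neg hl]
          rfl
      have h1 : 0 < S.card := Finset.card_pos.2 ⟨_, h0⟩
      have h2 : 0 < Fintype.card (mid (K := K) i j) := Fintype.card_pos
      positivity

lemma nf_entry (hθ : θ ≠ 1) (i j : Fin n) (hij : i < j) (y z : nil n K)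
    (hy : IsNF y.1) (hz : IsNF z.1)
    (h : ∀ a : K, a ≠ 0 → Fo θ (box i j a) y = Fo θ (box i j a) z) (hne : y.1 i j ≠ 0) :
    y.1 i j = z.1 i j := by
  by_contra hd
  obtain ⟨b, hb⟩ := exists_ne hθ
  apply hb
  have hd' : y.1 i j - z.1 i j ≠ 0 := sub_ne_zero.2 hd
  by_cases hb0 : b = 0
  · rw [hb0, AddChar.map_zero_eq_one]
  have ha : b / (y.1 i j - z.1 i j) ≠ 0 := div_ne_zero hb0 hd'
  set a := b / (y.1 i j - z.1 i j) with hadef
  obtain ⟨R, hR, e1, hR'⟩ := eval_NF hθ i j hij ha y hy
  obtain ⟨R2, hR2, e2, -⟩ := eval_NF hθ i j hij ha z hz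
  have h1 := h a ha
  rw [e1, e2] at h1
  have hRR : R = R2 := by
    have h2 := congrArg norm h1
    rw [norm_mul, norm_mul, AddChar.norm_apply, AddChar.norm_apply, one_mul, one_mul,
      Complex.norm_real, Complex.norm_real, Real.norm_of_nonneg hR, Real.norm_of_nonneg hR2] at h2
    exact h2
  rw [← hRR] at h1
  have hRc : (R : ℂ) ≠ 0 := by exact_mod_cast (hR' hne).ne'
  have h3 := mul_right_cancel₀ hRc h1
  have h4 : b = a * y.1 i j + -(a * z.1 i j) := by
    rw [hadef]
    field_simp
    ring
  rw [h4, AddChar.map_add_eq_mul, h3, ← AddChar.map_add_eq_mul, add_neg_cancel,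
    AddChar.map_zero_eq_one]

lemma nf_unique (hθ : θ ≠ 1) (y z : nil n K) (hy : IsNF y.1) (hz : IsNF z.1)
    (h : ∀ i j : Fin n, i < j → ∀ a : K, a ≠ 0 → Fo θ (box i j a) y = Fo θ (box i j a) z) :
    y = z := by
  apply Subtype.ext
  ext i j
  by_cases hij : i < j
  · by_cases h1 : y.1 i j = 0
    · by_cases h2 : z.1 i j = 0
      · rw [h1, h2]
      · exact (nf_entry hθ i j hij z y hz hy (fun a ha => (h i j hij a ha).symm) h2).symm
    · exact nf_entry hθ i j hij y z hy hz (h i j hij) h1
  · rw [y.2 i j (not_lt.1 hij), z.2 i j (not_lt.1 hij)]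

/-- the single-box supercharacters separate the superclasses -/
theorem box_separate (hθ : θ ≠ 1) (g h : U n K)
    (H : ∀ i j : Fin n, i < j → ∀ a : K, a ≠ 0 →
      superchar θ (box i j a) g = superchar θ (box i j a) h) : h ∈ superclass g := by
  obtain ⟨u, v, hu⟩ := exists_NF (sub1 g)
  obtain ⟨u', v', hu'⟩ := exists_NF (sub1 h)
  have h1 : act u v (sub1 g) = act u' v' (sub1 h) := by
    refine nf_unique hθ _ _ hu hu' ?_
    intro i j hij a ha
    rw [Fo_act, Fo_act, ← superchar_eq, ← superchar_eq]
    exact H i j hij a ha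
  refine ⟨u'⁻¹ * u, v * v'⁻¹, ?_⟩
  rw [← act_act, h1, act_inv]

end

end Pool.Agent.Y61.SC
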