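import Pool.Agent.Y61.SC.Count
import Pool.Agent.Helper884.IC.Compl

/-! The supercharacters as sums over blocks of irreducible characters. -/

open Classical

namespace Pool.Agent.Y61.SC

open Pool.Agent.Helper884.IC (B IsClass IsIrrChar class_eq_zero B_irr cardG_ne)

/-- the operator attached to a function -/
noncomputable abbrev Tp {G : Type} [Group G] [Fintype G] {V : Type} [AddCommGroup V] [Module ℂ V]
    (rho : Representation ℂ G V) (f : G → ℂ) : V →ₗ[ℂ] V := Pool.Agent.Helper884.IC.Top rho f

section gen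

variable {G : Type} [Group G]

instance finIrr [Finite G] : Finite (Irr G) := by
  have : Fintype G := Fintype.ofFinite G
  exact (Pool.Agent.Helper884.IC.irr_finite (G := G)).to_subtype

noncomputable instance ftIrr [Finite G] : Fintype (Irr G) := Fintype.ofFinite _

/-- the character of a block -/
noncomputable def sig (A : Set (Irr G)) (g : G) : ℂ := ∑ᶠ ψ ∈ A, ψ.1 1 * ψ.1 g

lemma sig_eq [Finite G] (A : Set (Irr G)) (g : G) :
    sig A g = ∑ ψ with ψ ∈ A, ψ.1 1 * ψ.1 g := by
  unfold sig
  rw [finsum_mem_eq_toFinset_sum]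
  refine Finset.sum_congr ?_ fun _ _ => rfl
  ext m
  simp

variable [Fintype G]

lemma B_irr' (ψ φ : Irr G) : B ψ.1 φ.1 = if ψ = φ then 1 else 0 := by
  rw [B_irr ψ.2 φ.2]
  by_cases h : ψ = φ
  · rw [if_pos h, if_pos (congrArg Subtype.val h)]
  · rw [if_neg h, if_neg (fun e => h (Subtype.ext e))]

lemma irr_class (ψ : Irr G) : IsClass ψ.1 := IsIrrChar.isClass ψ.2

lemma B_sum {ι : Type} (s : Finset ι) (c : ι → ℂ) (F : ι → G → ℂ) (h : G → ℂ) :
    B (fun g => ∑ i ∈ s, c i * F i g) h = ∑ i ∈ s, c i * B (F i) h := by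
  unfold B
  simp only [Finset.sum_mul, Finset.mul_sum]
  rw [Finset.sum_comm]
  exact Finset.sum_congr rfl fun i _ => Finset.sum_congr rfl fun g _ => by ring

lemma expand' (f : G → ℂ) (hf : IsClass f) (g : G) : f g = ∑ ψ : Irr G, B f ψ.1 * ψ.1 g := by
  have h : f - (fun g => ∑ ψ : Irr G, B f ψ.1 * ψ.1 g) = 0 := by
    apply class_eq_zero
    · intro x y
      simp only [Pi.sub_apply]
      rw [hf x y]
      congr 1
      exact Finset.sum_congr rfl fun ψ _ => by rw [irr_class ψ x y]
    · intro chi hchi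
      rw [Pool.Agent.Helper884.IC.B_sub_left, B_sum]
      have h1 : ∀ ψ : Irr G, B f ψ.1 * B ψ.1 chi = if ψ = ⟨chi, hchi⟩ then B f chi else 0 := by
        intro ψ
        have h2 := B_irr' ψ ⟨chi, hchi⟩
        simp only at h2
        rw [h2]
        by_cases h : ψ = ⟨chi, hchi⟩
        · rw [if_pos h, if_pos h, h, mul_one]
        · rw [if_neg h, if_neg h, mul_zero]
      simp_rw [h1]
      rw [Finset.sum_ite_eq']
      simp
  exact congrFun (sub_eq_zero.mp h) g

lemma char_one_eq (ψ : Irr G) : ∃ d : ℕ, d ≠ 0 ∧ ψ.1 1 = d := by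
  obtain ⟨χ, V, _, _, _, ρ, hρ, rfl⟩ := ψ
  refine ⟨Module.finrank ℂ V, ?_, ρ.char_one⟩
  have : Nontrivial V := by
    by_contra hn
    rw [not_nontrivial_iff_subsingleton] at hn
    have : Subsingleton (Subrepresentation ρ) := by
      constructor
      intro a b
      ext x
      have : x = 0 := Subsingleton.elim _ _
      subst this
      simp
    have h5 := hρ.toNontrivial
    exact not_subsingleton (Subrepresentation ρ) this
  exact Module.finrank_pos.ne'

lemma deg_ne (ψ : Irr G) : ψ.1 1 ≠ 0 := by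
  obtain ⟨d, hd, h⟩ := char_one_eq ψ
  rw [h]
  exact_mod_cast hd

lemma mem_constituents (f : G → ℂ) (ψ : Irr G) : ψ ∈ constituents f ↔ B f ψ.1 ≠ 0 := by
  unfold constituents B
  rw [Set.mem_ofPred_eq, finsum_eq_sum_of_fintype, ne_eq, ne_eq, mul_eq_zero, not_or]
  exact ⟨fun h => ⟨inv_ne_zero cardG_ne, h⟩, fun h => h.2⟩

lemma B_sig (A : Set (Irr G)) (ψ : Irr G) : B (sig A) ψ.1 = if ψ ∈ A then ψ.1 1 else 0 := by
  have h : sig A = fun g => ∑ φ with φ ∈ A, φ.1 1 * φ.1 g := by
    funext g
    rw [sig_eq]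
  rw [h, B_sum]
  simp_rw [B_irr']
  simp only [mul_ite, mul_one, mul_zero, Finset.sum_ite_eq', Finset.mem_filter, Finset.mem_univ,
    true_and]

/-- central elements act by scalars -/
lemma Tp_scalar {V : Type} [AddCommGroup V] [Module ℂ V] [FiniteDimensional ℂ V]
    (rho : Representation ℂ G V) [hirr : rho.IsIrreducible] (f : G → ℂ) (hf : IsClass f) :
    ∃ c : ℂ, Tp rho f = c • LinearMap.id := by
  have hcomm : ∀ (h : G) (v : V), Tp rho f (rho h v) = rho h (Tp rho f v) := by
    intro h v
    simp only [Tp, Pool.Agent.Helper884.IC.Top, LinearMap.sum_apply, LinearMap.smul_apply, map_sum, map_smul]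
    have : ∀ g : G, rho g⁻¹ (rho h v) = rho h (rho (h⁻¹ * g⁻¹ * h) v) := by
      intro g
      rw [← Module.End.mul_apply, ← Module.End.mul_apply, ← map_mul, ← map_mul]
      congr 2
      group
    simp_rw [this]
    refine Fintype.sum_equiv (MulAut.conj h⁻¹).toEquiv _ _ ?_
    intro g
    have e1 : (MulAut.conj h⁻¹).toEquiv g = h⁻¹ * g * h := by simp
    rw [e1]
    have h1 : f (h⁻¹ * g * h) = f g := by
      have := hf g h⁻¹
      simpa using this
    rw [h1]
    congr 4
    group
  let T : Representation.IntertwiningMap rho rho :=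
    (Tp rho f).intertwiningMap_of_isIntertwiningMap rho rho hcomm
  obtain ⟨c, hc⟩ := (Representation.IsIrreducible.algebraMap_intertwiningMap_bijective_of_isAlgClosed
    (ρ := rho)).2 T
  refine ⟨c, ?_⟩
  ext v
  have := congrArg (fun S : Representation.IntertwiningMap rho rho => S v) hc
  have h2 : T v = Tp rho f v := rfl
  rw [← h2]
  exact this.symm

lemma trace_Tp {V : Type} [AddCommGroup V] [Module ℂ V] [FiniteDimensional ℂ V]
    (rho : Representation ℂ G V) (f : G → ℂ) :
    LinearMap.trace ℂ V (Tp rho f) = (Nat.card G : ℂ) * B f rho.character := by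
  have h : LinearMap.trace ℂ V (Tp rho f) = ∑ g : G, f g * rho.character g⁻¹ := by
    simp [Tp, Pool.Agent.Helper884.IC.Top, Representation.character]
  rw [h, B, ← mul_assoc, mul_inv_cancel₀ cardG_ne, one_mul]

end gen

variable {n : ℕ} {K : Type} [Field K] [Finite K] {θ : AddChar K ℂ}

lemma sub1_conj (g y : U n K) : sub1 (y * g * y⁻¹) = act y y⁻¹ (sub1 g) := by
  apply Subtype.ext
  change y.1.1 * g.1.1 * (y⁻¹).1.1 - 1 = y.1.1 * (g.1.1 - 1) * (y⁻¹).1.1
  have h : y.1.1 * (y⁻¹).1.1 = 1 := by
    have := congrArg (fun z : U n K => z.1.1) (mul_inv_cancel y)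
    exact this
  rw [mul_sub, sub_mul, mul_one, h]

lemma sub1_div (k g : U n K) : sub1 (k * g⁻¹) = act 1 g⁻¹ (sub1 k - sub1 g) := by
  apply Subtype.ext
  change k.1.1 * (g⁻¹).1.1 - 1 = 1 * ((k.1.1 - 1) - (g.1.1 - 1)) * (g⁻¹).1.1
  have h : g.1.1 * (g⁻¹).1.1 = 1 := by
    have := congrArg (fun z : U n K => z.1.1) (mul_inv_cancel g)
    exact this
  rw [sub_sub_sub_cancel_right, one_mul, sub_mul, h]

lemma super_class (l : Module.Dual K (nil n K)) : IsClass (superchar θ l) := by
  intro g y
  rw [superchar_eq, superchar_eq, sub1_conj, Fo_act]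

lemma super_congr {l m : Module.Dual K (nil n K)} (h : m ∈ orbit l) :
    superchar θ m = superchar θ l := by
  funext g
  rw [superchar_eq, superchar_eq, Fo_congr h]

lemma card_U : Fintype.card (U n K) = Fintype.card (nil n K) := Fintype.card_congr equivU

lemma super_conv (hθ : θ ≠ 1) (l m : Module.Dual K (nil n K)) (k : U n K) :
    ∑ g : U n K, superchar θ l g * superchar θ m (k * g⁻¹) =
      if m ∈ orbit l then (Fintype.card (nil n K) : ℂ) * superchar θ l k else 0 := by
  rw [superchar_eq, ← Fo_conv hθ, ← Equiv.sum_comp equivU]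
  refine Finset.sum_congr rfl fun g _ => ?_
  rw [superchar_eq, superchar_eq, sub1_div, Fo_act, equivU_apply]

lemma Tp_mul {V : Type} [AddCommGroup V] [Module ℂ V] [FiniteDimensional ℂ V]
    (rho : Representation ℂ (U n K) V) (hθ : θ ≠ 1) (l m : Module.Dual K (nil n K)) :
    Tp rho (superchar θ l) * Tp rho (superchar θ m) =
      if m ∈ orbit l then (Fintype.card (nil n K) : ℂ) • Tp rho (superchar θ l) else 0 := by
  have h1 : Tp rho (superchar θ l) * Tp rho (superchar θ m) =
      ∑ k : U n K, (∑ g : U n K, superchar θ l g * superchar θ m (k * g⁻¹)) • rho k⁻¹ := by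
    unfold Tp Pool.Agent.Helper884.IC.Top
    simp_rw [Finset.sum_mul_sum, Finset.sum_smul]
    rw [Finset.sum_comm (γ := U n K) (s := Finset.univ) (t := Finset.univ)
      (f := fun k g => (superchar θ l g * superchar θ m (k * g⁻¹)) • rho k⁻¹)]
    refine Finset.sum_congr rfl fun g _ => ?_
    refine Fintype.sum_equiv (Equiv.mulRight g) _ _ ?_
    intro h
    simp only [Equiv.coe_mulRight, mul_inv_cancel_right, mul_inv_rev, map_mul, smul_mul_smul_comm]
  rw [h1]
  simp_rw [super_conv hθ]
  by_cases h : m ∈ orbit l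
  · simp only [if_pos h, mul_smul]
    rw [Tp, Pool.Agent.Helper884.IC.Top, Finset.smul_sum]
  · simp only [if_neg h, zero_smul, Finset.sum_const_zero]

lemma natcard_U : (Nat.card (U n K) : ℂ) = (Fintype.card (nil n K) : ℂ) := by
  rw [Nat.card_eq_fintype_card, card_U]

/-- the basic dichotomy -/
lemma B_super (hθ : θ ≠ 1) (ψ : Irr (U n K)) :
    (∀ l, B (superchar θ l) ψ.1 = 0 ∨ B (superchar θ l) ψ.1 = ψ.1 1) ∧
    ∀ l m, B (superchar θ l) ψ.1 ≠ 0 → B (superchar θ m) ψ.1 ≠ 0 → m ∈ orbit l := by
  obtain ⟨d, hd, hd'⟩ := char_one_eq ψ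
  have hdc : (d : ℂ) ≠ 0 := by exact_mod_cast hd
  obtain ⟨χ, V, i1, i2, i3, ρ, hρ, rfl⟩ := ψ
  simp only at hd' ⊢
  have hdim : ρ.character 1 = Module.finrank ℂ V := ρ.char_one
  have hN : (Fintype.card (nil n K) : ℂ) ≠ 0 := by exact_mod_cast Fintype.card_ne_zero
  choose c hc using fun l => Tp_scalar ρ (superchar θ l) (super_class l)
  have htr : ∀ l, c l * d = (Fintype.card (nil n K) : ℂ) * B (superchar θ l) ρ.character := by
    intro l
    have h1 := trace_Tp ρ (superchar θ l)
    rw [hc l, map_smul, LinearMap.trace_id, smul_eq_mul, ← hdim, hd', natcard_U] at h1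
    exact h1
  have hVn : (LinearMap.id : V →ₗ[ℂ] V) ≠ 0 := by
    intro h
    have h1 := congrArg (LinearMap.trace ℂ V) h
    rw [LinearMap.trace_id, map_zero, ← hdim, hd'] at h1
    exact hdc h1
  have hprod : ∀ l m, c l * c m = if m ∈ orbit l then (Fintype.card (nil n K) : ℂ) * c l
      else 0 := by
    intro l m
    have h1 := Tp_mul ρ hθ l m
    have h2 : Tp ρ (superchar θ l) * Tp ρ (superchar θ m) =
        (c l * c m) • (LinearMap.id : V →ₗ[ℂ] V) := by
      rw [hc l, hc m]
      rw [mul_comm (c l) (c m)]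
      ext v
      simp [mul_smul]
    rw [h2, hc l] at h1
    by_cases h : m ∈ orbit l
    · rw [if_pos h] at h1 ⊢
      rw [← mul_smul] at h1
      exact smul_left_injective ℂ hVn h1
    · rw [if_neg h] at h1 ⊢
      exact (smul_eq_zero.1 h1).resolve_right hVn
  constructor
  · intro l
    have h1 := hprod l l
    rw [if_pos (mem_orbit_self l)] at h1
    have h2 : (c l - (Fintype.card (nil n K) : ℂ)) * c l = 0 := by
      rw [sub_mul, h1, sub_self]
    rcases mul_eq_zero.1 h2 with h3 | h3
    · right
      have h4 := htr l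
      rw [sub_eq_zero.1 h3] at h4
      rw [hd']
      exact (mul_left_cancel₀ hN h4).symm
    · left
      have h4 := htr l
      rw [h3, zero_mul] at h4
      exact (mul_eq_zero.1 h4.symm).resolve_left hN
  · intro l m hl hm
    by_contra hlm
    have h1 := hprod l m
    rw [if_neg hlm] at h1
    rcases mul_eq_zero.1 h1 with h3 | h3
    · have h4 := htr l
      rw [h3, zero_mul] at h4
      exact hl ((mul_eq_zero.1 h4.symm).resolve_left hN)
    · have h4 := htr m
      rw [h3, zero_mul] at h4
      exact hm ((mul_eq_zero.1 h4.symm).resolve_left hN)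

lemma sum_out (hθ : θ ≠ 1) (y : nil n K) :
    ∑ q : Quotient (s2 n K), Fo θ q.out y =
      if y = 0 then (Fintype.card (Module.Dual K (nil n K)) : ℂ) else 0 := by
  rw [← sum_vec hθ y, ← Finset.sum_fiberwise (Finset.univ) (fun l => Quotient.mk (s2 n K) l)]
  refine Finset.sum_congr rfl fun q _ => ?_
  unfold Fo
  refine Finset.sum_congr ?_ fun _ _ => rfl
  ext l
  simp only [Finset.mem_filter, Finset.mem_univ, true_and]
  constructor
  · intro hl
    have h3 : Quotient.mk (s2 n K) q.out = Quotient.mk (s2 n K) l := by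
      rw [Quotient.out_eq]
      exact (Quotient.out_eq q) ▸ Quotient.sound hl
    rw [← h3, Quotient.out_eq]
  · intro hl
    have h3 : Quotient.mk (s2 n K) q.out = Quotient.mk (s2 n K) l := by
      rw [Quotient.out_eq, hl]
    exact Quotient.exact h3

lemma exists_constituent (hθ : θ ≠ 1) (ψ : Irr (U n K)) :
    ∃ l, B (superchar θ l) ψ.1 ≠ 0 := by
  by_contra h
  push Not at h
  have h1 : B (fun g => ∑ q : Quotient (s2 n K), (1 : ℂ) * superchar θ q.out g) ψ.1 = 0 := by
    rw [B_sum]
    exact Finset.sum_eq_zero fun q _ => by rw [h, mul_zero]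
  have h2 : (fun g => ∑ q : Quotient (s2 n K), (1 : ℂ) * superchar θ q.out g) =
      fun g : U n K => if g = 1 then (Fintype.card (Module.Dual K (nil n K)) : ℂ) else 0 := by
    funext g
    simp_rw [one_mul, superchar_eq]
    rw [sum_out hθ]
    have h3 : sub1 g = 0 ↔ g = 1 := by
      constructor
      · intro e
        apply sub1_injective
        rw [e]
        apply Subtype.ext
        change (0 : Matrix (Fin n) (Fin n) K) = (1 : Matrix (Fin n) (Fin n) K) - 1
        rw [sub_self]
      · rintro rfl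
        apply Subtype.ext
        change (1 : Matrix (Fin n) (Fin n) K) - 1 = 0
        rw [sub_self]
    simp only [h3]
  rw [h2, B] at h1
  simp only [ite_mul, zero_mul, Finset.sum_ite_eq', Finset.mem_univ, if_true, inv_one] at h1
  have hN : (Fintype.card (Module.Dual K (nil n K)) : ℂ) ≠ 0 := by
    exact_mod_cast Fintype.card_ne_zero
  exact (mul_ne_zero (inv_ne_zero cardG_ne) (mul_ne_zero hN (deg_ne ψ))) h1

/-- the supercharacter is the character of its block of constituents -/
lemma super_eq_sig (hθ : θ ≠ 1) (l : Module.Dual K (nil n K)) :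
    superchar θ l = sig (constituents (superchar θ l)) := by
  funext g
  rw [sig_eq, expand' (superchar θ l) (super_class l) g, Finset.sum_filter]
  refine Finset.sum_congr rfl fun ψ _ => ?_
  rw [mem_constituents]
  rcases (B_super hθ ψ).1 l with h | h
  · rw [if_neg (by rw [h]; exact fun h' => h' rfl), h, zero_mul]
  · rw [if_pos (by rw [h]; exact deg_ne ψ), h]

lemma constituents_nonempty (hθ : θ ≠ 1) (l : Module.Dual K (nil n K)) :
    (constituents (superchar θ l)).Nonempty := by
  by_contra h
  rw [Set.not_nonempty_iff_eq_empty] at h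
  have h1 := congrFun (super_eq_sig hθ l) 1
  rw [h, sig_eq, superchar_eq] at h1
  simp only [Set.mem_empty_iff_false, Finset.filter_false, Finset.sum_empty] at h1
  have h2 : sub1 (1 : U n K) = 0 := by
    apply Subtype.ext
    change (1 : Matrix (Fin n) (Fin n) K) - 1 = 0
    rw [sub_self]
  rw [h2, Fo] at h1
  simp only [map_zero, AddChar.map_zero_eq_one, Finset.sum_const, nsmul_eq_mul, mul_one] at h1
  have h3 : (Finset.univ.filter (fun m => m ∈ orbit l)).card ≠ 0 := by
    rw [Finset.card_ne_zero]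
    exact ⟨l, by simp [mem_orbit_self]⟩
  exact h3 (by exact_mod_cast h1)

lemma constituents_eq_iff (hθ : θ ≠ 1) (l m : Module.Dual K (nil n K)) :
    constituents (superchar θ l) = constituents (superchar θ m) ↔ m ∈ orbit l := by
  constructor
  · intro h
    obtain ⟨ψ, hψ⟩ := constituents_nonempty hθ l
    have h1 := hψ
    rw [h] at h1
    rw [mem_constituents] at hψ h1
    exact (B_super hθ ψ).2 l m hψ h1
  · intro h
    rw [super_congr h]

/-- the number of blocks of characters is the number of orbits on functionals -/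
lemma ncard_andreX (hθ : θ ≠ 1) : (andreX n K θ).ncard = Nat.card (Quotient (s2 n K)) := by
  let F : Quotient (s2 n K) → Set (Irr (U n K)) := fun q =>
    Quotient.lift (fun l => constituents (superchar θ l))
      (fun l m h => (constituents_eq_iff hθ l m).2 h) q
  have hF : Function.Injective F := by
    intro q q' h
    induction q using Quotient.inductionOn with
    | h y =>
      induction q' using Quotient.inductionOn with
      | h z => exact Quotient.sound ((constituents_eq_iff hθ y z).1 h)
  have hr : Set.range F = andreX n K θ := by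
    ext B
    constructor
    · rintro ⟨q, rfl⟩
      induction q using Quotient.inductionOn with
      | h y => exact ⟨y, rfl⟩
    · rintro ⟨g, rfl⟩
      exact ⟨Quotient.mk (s2 n K) g, rfl⟩
  rw [← hr, ← Nat.card_coe_set_eq, Nat.card_range_of_injective hF]

/-- the pair is a supercharacter theory -/
theorem andre_isTheory (hθ : θ ≠ 1) : IsTheory (andreX n K θ) (andreC n K) where
  chars := by
    constructor
    · rintro ⟨l, hl⟩
      exact (constituents_nonempty hθ l).ne_empty hl
    · intro ψ
      obtain ⟨l, hl⟩ := exists_constituent hθ ψ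
      refine ⟨constituents (superchar θ l), ⟨⟨l, rfl⟩, (mem_constituents _ _).2 hl⟩, ?_⟩
      rintro A ⟨⟨m, rfl⟩, hm⟩
      rw [mem_constituents] at hm
      exact (constituents_eq_iff hθ m l).2 ((B_super hθ ψ).2 m l hm hl)
  classes := by
    have hself : ∀ g : U n K, g ∈ superclass g := fun g => ⟨1, 1, (act_one _).symm⟩
    constructor
    · rintro ⟨x, hx⟩
      exact (Set.nonempty_of_mem (hself x)).ne_empty hx
    · intro g
      refine ⟨superclass g, ⟨⟨g, rfl⟩, hself g⟩, ?_⟩
      rintro A ⟨⟨m, rfl⟩, u, v, hm⟩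
      ext h
      constructor
      · rintro ⟨u', v', h'⟩
        refine ⟨u' * u⁻¹, v⁻¹ * v', ?_⟩
        rw [h', hm, act_act, inv_mul_cancel_right, mul_inv_cancel_left]
      · rintro ⟨u', v', h'⟩
        refine ⟨u' * u, v * v', ?_⟩
        rw [h', hm, act_act]
  card_eq := by
    rw [ncard_andreX hθ, ncard_andreC, card_quot hθ]
  one_mem := by
    refine ⟨1, ?_⟩
    have h2 : sub1 (1 : U n K) = 0 := by
      apply Subtype.ext
      change (1 : Matrix (Fin n) (Fin n) K) - 1 = 0
      rw [sub_self]
    ext g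
    constructor
    · rintro ⟨u, v, h⟩
      rw [h2, map_zero, ← h2] at h
      exact sub1_injective h
    · intro h
      rw [Set.mem_singleton_iff] at h
      rw [h]
      exact ⟨1, 1, (act_one _).symm⟩
  const := by
    rintro A ⟨l, rfl⟩ D ⟨x, rfl⟩ g ⟨u, v, hg⟩ h ⟨u', v', hh⟩
    have h1 : ∀ k, ∑ᶠ ψ ∈ constituents (superchar θ l), ψ.1 1 * ψ.1 k = superchar θ l k := by
      intro k
      exact (congrFun (super_eq_sig hθ l) k).symm
    rw [h1, h1, superchar_eq, superchar_eq, hg, hh, Fo_act, Fo_act]

end Pool.Agent.Y61.SC
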